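import Pool.Agent.Helper88.GP.Met

/-!
# GP, chapter MET: continuity of the chain metric
-/

namespace Pool.Agent.Helper88.GP

open Pool.Agent.Helper18.GP Relation Finset Filter Topology

variable {N : ℕ} {V : Finset (Fin N)} {G : SimpleGraph (Fin N)} {P : Fin N → ℂ}
  {x y z : Fin N → ℝ} {c c' : ℝ}

theorem dev_diff_le (P P' : Fin N → ℂ) {δ : ℝ} (hδ : ∀ v, ‖P v - P' v‖ ≤ δ) (hx : x ∈ Pts V G) :
    ‖dev P x - dev P' x‖ ≤ δ := by
  unfold dev
  rw [← Finset.sum_sub_distrib]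
  calc ‖∑ v, ((x v : ℂ) * P v - (x v : ℂ) * P' v)‖ ≤ ∑ v, ‖(x v : ℂ) * P v - (x v : ℂ) * P' v‖ :=
        norm_sum_le _ _
    _ ≤ ∑ v, x v * δ := by
        refine Finset.sum_le_sum fun v _ => ?_
        rw [← mul_sub, norm_mul, Complex.norm_real, Real.norm_of_nonneg (hx.1 v)]
        exact mul_le_mul_of_nonneg_left (hδ v) (hx.1 v)
    _ = δ := by rw [← Finset.sum_mul, hx.2.1, one_mul]

theorem len_lip (P P' : Fin N → ℂ) {δ : ℝ} (hδ : ∀ v, ‖P v - P' v‖ ≤ δ) {n : ℕ}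
    {z : ℕ → (Fin N → ℝ)} (hz : IsC V G n z) : len P' n z ≤ len P n z + n * (2 * δ) := by
  unfold len
  rw [show (n : ℝ) * (2 * δ) = ∑ i ∈ range n, (2 * δ) by simp, ← Finset.sum_add_distrib]
  refine Finset.sum_le_sum fun i hi => ?_
  rw [mem_range] at hi
  have h1 := dev_diff_le P P' hδ (hz.mem i hi.le)
  have h2 := dev_diff_le P P' hδ (hz.mem (i + 1) hi)
  calc ‖dev P' (z i) - dev P' (z (i + 1))‖ = ‖(dev P (z i) - dev P (z (i + 1))) -
        (dev P (z i) - dev P' (z i)) + (dev P (z (i + 1)) - dev P' (z (i + 1)))‖ := by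
        congr 1; ring
    _ ≤ ‖(dev P (z i) - dev P (z (i + 1))) - (dev P (z i) - dev P' (z i))‖ +
        ‖dev P (z (i + 1)) - dev P' (z (i + 1))‖ := norm_add_le _ _
    _ ≤ ‖dev P (z i) - dev P (z (i + 1))‖ + ‖dev P (z i) - dev P' (z i)‖ +
        ‖dev P (z (i + 1)) - dev P' (z (i + 1))‖ := by
        gcongr
        exact norm_sub_le _ _
    _ ≤ _ := by linarith

/-- Lipschitz dependence on the positions -/
theorem dK_lip (P P' : Fin N → ℂ) {δ : ℝ} (hδ : ∀ v, ‖P v - P' v‖ ≤ δ)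
    (h : ∃ c, Ch V G P x y c) : dK V G P' x y ≤ dK V G P x y + 2 ^ N * (2 * δ) := by
  obtain ⟨n, z, hz, h0, hn, hl⟩ := IsC_of_Ch (att h)
  obtain ⟨z', h1, h2, h3, h4⟩ := shorten' hz
  have h5 := Ch_of_IsC P' _ h1
  rw [h2, h3, h0, hn] at h5
  have h6 := len_lip P P' hδ h1
  have h7 := h4 P
  push_cast at h6
  have h8 := dK_le h5
  linarith

/-- **stCont** -/
theorem cont (hB : stBdAdj) : stCont := by
  intro N V G ht q₀ hq₀
  obtain ⟨P₀, x₀, y₀⟩ := q₀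
  obtain ⟨hx₀, hy₀⟩ : x₀ ∈ Pts V G ∧ y₀ ∈ Pts V G := hq₀
  rw [ContinuousWithinAt, tendsto_iff_norm_sub_tendsto_zero]
  set B : (Fin N → ℂ) × (Fin N → ℝ) × (Fin N → ℝ) → ℝ := fun q =>
    2 ^ N * (2 * ‖q.1 - P₀‖) + (‖dev P₀ q.2.1 - dev P₀ x₀‖ + ‖dev P₀ q.2.2 - dev P₀ y₀‖) with hBdef
  have hBc : Continuous B := by
    have h1 : Continuous fun q : (Fin N → ℂ) × (Fin N → ℝ) × (Fin N → ℝ) => dev P₀ q.2.1 :=
      (continuous_dev P₀).comp (continuous_fst.comp continuous_snd)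
    have h2 : Continuous fun q : (Fin N → ℂ) × (Fin N → ℝ) × (Fin N → ℝ) => dev P₀ q.2.2 :=
      (continuous_dev P₀).comp (continuous_snd.comp continuous_snd)
    exact (continuous_const.mul (continuous_const.mul (continuous_fst.sub continuous_const).norm)).add
      ((h1.sub continuous_const).norm.add (h2.sub continuous_const).norm)
  have hB0 : Tendsto B (𝓝[{q | q.2.1 ∈ Pts V G ∧ q.2.2 ∈ Pts V G}] (P₀, x₀, y₀)) (𝓝 0) := by
    have h := (hBc.tendsto (P₀, x₀, y₀)).mono_left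
      (nhdsWithin_le_nhds (s := {q | q.2.1 ∈ Pts V G ∧ q.2.2 ∈ Pts V G}))
    simpa [hBdef] using h
  have e1 : ∀ᶠ q in 𝓝 (P₀, x₀, y₀), ∀ v, x₀ v ≠ 0 → q.2.1 v ≠ 0 := by
    rw [Filter.eventually_all]
    intro v
    by_cases hv : x₀ v = 0
    · exact Eventually.of_forall fun q h => absurd hv h
    · have hc : Continuous fun q : (Fin N → ℂ) × (Fin N → ℝ) × (Fin N → ℝ) => q.2.1 v :=
        (continuous_apply v).comp (continuous_fst.comp continuous_snd)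
      exact (hc.continuousAt.eventually_ne hv).mono fun q hq _ => hq
  have e2 : ∀ᶠ q in 𝓝 (P₀, x₀, y₀), ∀ v, y₀ v ≠ 0 → q.2.2 v ≠ 0 := by
    rw [Filter.eventually_all]
    intro v
    by_cases hv : y₀ v = 0
    · exact Eventually.of_forall fun q h => absurd hv h
    · have hc : Continuous fun q : (Fin N → ℂ) × (Fin N → ℝ) × (Fin N → ℝ) => q.2.2 v :=
        (continuous_apply v).comp (continuous_snd.comp continuous_snd)
      exact (hc.continuousAt.eventually_ne hv).mono fun q hq _ => hq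
  refine squeeze_zero' (Eventually.of_forall fun _ => norm_nonneg _) ?_ hB0
  have hm := metP hB ht P₀
  filter_upwards [self_mem_nhdsWithin, nhdsWithin_le_nhds e1, nhdsWithin_le_nhds e2]
    with q hq h1 h2
  obtain ⟨hx, hy⟩ := hq
  have hδ : ∀ v, ‖q.1 v - P₀ v‖ ≤ ‖q.1 - P₀‖ := fun v => norm_le_pi_norm (q.1 - P₀) v
  have hδ' : ∀ v, ‖P₀ v - q.1 v‖ ≤ ‖q.1 - P₀‖ := fun v => by rw [norm_sub_rev]; exact hδ v
  have l1 := dK_lip q.1 P₀ hδ (conn hB ht q.1 hx hy)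
  have l2 := dK_lip P₀ q.1 hδ' (conn hB ht P₀ hx hy)
  have s1 : Sh G q.2.1 x₀ := fun a b ha hb hab =>
    hx.2.2.2 a b (ha.elim id (h1 a)) (hb.elim id (h1 b)) hab
  have s2 : Sh G q.2.2 y₀ := fun a b ha hb hab =>
    hy.2.2.2 a b (ha.elim id (h2 a)) (hb.elim id (h2 b)) hab
  have d1 := hm.sh _ hx _ hx₀ s1
  have d2 := hm.sh _ hy _ hy₀ s2
  have t1 := hm.tri _ hx _ hx₀ _ hy
  have t2 := hm.tri _ hx₀ _ hy₀ _ hy
  have t3 := hm.tri _ hx₀ _ hx _ hy₀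
  have t4 := hm.tri _ hx _ hy _ hy₀
  have c1 := hm.symm _ hx₀ _ hx
  have c2 := hm.symm _ hy₀ _ hy
  rw [Real.norm_eq_abs, abs_le]
  simp only [hBdef]
  constructor <;> linarith

end Pool.Agent.Helper88.GP
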