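import Pool.Agent.Helper88.GP.Met

/-!
# GP, chapter MET: gluing along an edge
-/

namespace Pool.Agent.Helper88.GP

open Pool.Agent.Helper18.GP Relation Finset Filter Topology

variable {N : ℕ} {V : Finset (Fin N)} {G : SimpleGraph (Fin N)} {P : Fin N → ℂ}
  {x y z : Fin N → ℝ} {c c' : ℝ} {a b : Fin N}

theorem Pts_mono {S : Finset (Fin N)} (h : S ⊆ V) : Pts S G ⊆ Pts V G :=
  fun _ hx => ⟨hx.1, hx.2.1, fun v hv => h (hx.2.2.1 v hv), hx.2.2.2⟩

theorem mem_Pts_of {S : Finset (Fin N)} (hx : x ∈ Pts V G) (h : ∀ v, x v ≠ 0 → v ∈ S) :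
    x ∈ Pts S G := ⟨hx.1, hx.2.1, h, hx.2.2.2⟩

theorem Ch_mono {S : Finset (Fin N)} (h : S ⊆ V) (hc : Ch S G P x y c) : Ch V G P x y c := by
  induction hc with
  | nil x hx => exact Ch.nil x (Pts_mono h hx)
  | cons x w y c hx hs _ ih => exact Ch.cons x w y c (Pts_mono h hx) hs ih

/-- a step lies on one side of an edge -/
theorem step_side (hSide : stSide) (ht : IsTri V G) (ha : a ∈ V) (hb : b ∈ V) (hab : G.Adj a b)
    (hx : x ∈ Pts V G) (hy : y ∈ Pts V G) (hs : Sh G x y) :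
    (x ∈ Pts (Arc V a b) G ∧ y ∈ Pts (Arc V a b) G) ∨
      (x ∈ Pts (Arc V b a) G ∧ y ∈ Pts (Arc V b a) G) := by
  classical
  have h := hSide N V G ht a ha b hb hab (univ.filter fun v => x v ≠ 0 ∨ y v ≠ 0)
    (fun v hv => by
      rw [mem_filter] at hv
      exact hv.2.elim (hx.2.2.1 v) (hy.2.2.1 v))
    (fun u hu v hv huv => by
      rw [mem_filter] at hu hv
      exact hs u v hu.2 hv.2 huv)
  refine h.imp (fun h => ⟨?_, ?_⟩) (fun h => ⟨?_, ?_⟩)
  · exact mem_Pts_of hx fun v hv => h (by simp [hv])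
  · exact mem_Pts_of hy fun v hv => h (by simp [hv])
  · exact mem_Pts_of hx fun v hv => h (by simp [hv])
  · exact mem_Pts_of hy fun v hv => h (by simp [hv])

theorem supp_edge (hab : b ≠ a) (h1 : x ∈ Pts (Arc V a b) G) (h2 : x ∈ Pts (Arc V b a) G)
    (v : Fin N) (hv : x v ≠ 0) : v = a ∨ v = b :=
  mem_Arc_both hab (h1.2.2.1 v hv) (h2.2.2.1 v hv)

theorem eq_seg (hab : b ≠ a) (hx : x ∈ Pts V G) (h : ∀ v, x v ≠ 0 → v = a ∨ v = b) :
    ∃ t ∈ Set.Icc (0 : ℝ) 1, x = seg a b t := by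
  have h0 : ∀ v, v ≠ a → v ≠ b → x v = 0 := by
    intro v h1 h2
    by_contra hv
    exact (h v hv).elim h1 h2
  have hsum : x a + x b = 1 := by
    rw [← hx.2.1, ← Finset.sum_pair (f := x) hab.symm]
    refine Finset.sum_subset (subset_univ _) fun v _ hv => ?_
    simp only [mem_insert, mem_singleton, not_or] at hv
    exact h0 v hv.1 hv.2
  refine ⟨x b, ⟨hx.1 b, by have := hx.1 a; linarith⟩, ?_⟩
  funext v
  unfold seg dl
  by_cases h1 : v = a
  · subst h1
    rw [Pi.single_eq_same, Pi.single_eq_of_ne hab.symm]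
    linarith
  · by_cases h2 : v = b
    · subst h2
      rw [Pi.single_eq_same, Pi.single_eq_of_ne h1]
      ring
    · rw [Pi.single_eq_of_ne h1, Pi.single_eq_of_ne h2, h0 v h1 h2]
      ring

theorem Sh_edge (hab : G.Adj a b) (h : ∀ v, x v ≠ 0 → v = a ∨ v = b)
    (h' : ∀ v, y v ≠ 0 → v = a ∨ v = b) : Sh G x y := by
  intro u v hu hv huv
  have h1 := hu.elim (h u) (h' u)
  have h2 := hv.elim (h v) (h' v)
  rcases h1 with rfl | rfl <;> rcases h2 with rfl | rfl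
  · exact absurd rfl huv
  · exact hab
  · exact hab.symm
  · exact absurd rfl huv

/-- a chain that crosses the edge `ab` has a point on the edge -/
theorem cross_aux (hSide : stSide) (ht : IsTri V G) (ha : a ∈ V) (hb : b ∈ V) (hab : G.Adj a b)
    (h : Ch V G P x y c) : x ∈ Pts (Arc V a b) G → y ∈ Pts (Arc V b a) G →
    ∃ e, e ∈ Pts (Arc V a b) G ∧ e ∈ Pts (Arc V b a) G ∧
      ∃ c₁ c₂, Ch V G P x e c₁ ∧ Ch V G P e y c₂ ∧ c₁ + c₂ = c := by
  induction h with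
  | nil x hx =>
    intro h1 h2
    exact ⟨x, h1, h2, 0, 0, Ch.nil x hx, Ch.nil x hx, by ring⟩
  | cons x w y c hx hs h ih =>
    intro h1 h2
    rcases step_side hSide ht ha hb hab hx (Ch_left h) hs with h3 | h3
    · obtain ⟨e, he1, he2, c₁, c₂, hc1, hc2, rfl⟩ := ih h3.2 h2
      exact ⟨e, he1, he2, _, c₂, Ch.cons x w e c₁ hx hs hc1, hc2, by ring⟩
    · exact ⟨x, h1, h3.1, 0, _, Ch.nil x hx, Ch.cons x w y c hx hs h, by ring⟩

/-- excursions to the other side do not help -/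
theorem sub_aux (hSide : stSide) (ht : IsTri V G) (ha : a ∈ V) (hb : b ∈ V) (hab : G.Adj a b)
    (h : Ch V G P x y c) : y ∈ Pts (Arc V a b) G →
    (x ∈ Pts (Arc V a b) G → ∃ c' ≤ c, Ch (Arc V a b) G P x y c') ∧
    (x ∈ Pts (Arc V b a) G → ∃ e, e ∈ Pts (Arc V a b) G ∧ e ∈ Pts (Arc V b a) G ∧
      ∃ r c', ‖dev P x - dev P e‖ ≤ r ∧ Ch (Arc V a b) G P e y c' ∧ r + c' ≤ c) := by
  induction h with
  | nil x hx =>
    intro h1
    refine ⟨fun h2 => ⟨0, le_rfl, Ch.nil x h2⟩, fun h2 => ⟨x, h1, h2, 0, 0, by simp,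
      Ch.nil x h1, by simp⟩⟩
  | cons x w y c hx hs h ih =>
    intro h1
    obtain ⟨i1, i2⟩ := ih h1
    rcases step_side hSide ht ha hb hab hx (Ch_left h) hs with h3 | h3
    · obtain ⟨c', hc', hch⟩ := i1 h3.2
      have hcons := Ch.cons (P := P) x w y c' h3.1 hs hch
      refine ⟨fun _ => ⟨_, by linarith, hcons⟩, fun h4 => ⟨x, h3.1, h4, 0, _, by simp, hcons,
        by linarith⟩⟩
    · obtain ⟨e, he1, he2, r, c', hr, hch, hle⟩ := i2 h3.2
      have htri : ‖dev P x - dev P e‖ ≤ ‖dev P x - dev P w‖ + r := by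
        calc ‖dev P x - dev P e‖ = ‖(dev P x - dev P w) + (dev P w - dev P e)‖ := by
              congr 1; ring
          _ ≤ ‖dev P x - dev P w‖ + ‖dev P w - dev P e‖ := norm_add_le _ _
          _ ≤ _ := by linarith
      refine ⟨fun h4 => ?_, fun _ => ⟨e, he1, he2, _, c', htri, hch, by linarith⟩⟩
      have hsh : Sh G x e := Sh_edge hab (supp_edge hab.ne.symm h4 h3.1)
        (supp_edge hab.ne.symm he1 he2)
      exact ⟨_, by linarith, Ch.cons x e y c' h4 hsh hch⟩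

theorem glueP (hB : stBdAdj) (hSide : stSide) (ht : IsTri V G) (P : Fin N → ℂ) (ha : a ∈ V)
    (hb : b ∈ V) (hab : G.Adj a b) : GlueP V G P a b := by
  have hm := metP hB ht P
  have hne := hab.ne.symm
  refine ⟨fun x hx => ?_, fun x h1 h2 => eq_seg hne (Pts_mono (Arc_sub _ _ _) h1)
    (supp_edge hne h1 h2), fun x hx y hy => ?_, fun x hx y hy => ?_⟩
  · exact (step_side hSide ht ha hb hab hx hx (Sh_self hx)).imp (fun h => h.1) (fun h => h.1)
  · have hxV := Pts_mono (Arc_sub V a b) hx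
    have hyV := Pts_mono (Arc_sub V b a) hy
    obtain ⟨e, he1, he2, c₁, c₂, hc1, hc2, hsum⟩ :=
      cross_aux hSide ht ha hb hab (hm.att x hxV y hyV) hx hy
    have heV := Pts_mono (Arc_sub V a b) he1
    obtain ⟨t, ht1, rfl⟩ := eq_seg hne heV (supp_edge hne he1 he2)
    refine ⟨t, ht1, le_antisymm (hm.tri _ hxV _ heV _ hyV) ?_⟩
    have := dK_le hc1
    have := dK_le hc2
    linarith
  · have hxV := Pts_mono (Arc_sub V a b) hx
    have hyV := Pts_mono (Arc_sub V a b) hy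
    obtain ⟨c', hc', hch⟩ := (sub_aux hSide ht ha hb hab (hm.att x hxV y hyV) hy).1 hx
    refine le_antisymm ((dK_le hch).trans hc') ?_
    exact le_csInf ⟨c', hch⟩ fun c hc => dK_le (Ch_mono (Arc_sub _ _ _) hc)

/-- **stGlue** -/
theorem glue (hB : stBdAdj) (hSide : stSide) : stGlue :=
  fun _ _ _ P ht _ ha _ hb hab => glueP hB hSide ht P ha hb hab

end Pool.Agent.Helper88.GP
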