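import Pool.Agent.Helper18.GP.Cyc

/-!
# GP, chapter MET: the chain metric
-/

namespace Pool.Agent.Helper88.GP

open Pool.Agent.Helper18.GP Relation Finset

variable {N : ℕ} {V : Finset (Fin N)} {G : SimpleGraph (Fin N)} {P : Fin N → ℂ}
  {x y z : Fin N → ℝ} {c c' : ℝ}

/-! ### chains -/

theorem Sh_symm (h : Sh G x y) : Sh G y x := fun a b ha hb hab => h a b ha.symm hb.symm hab

theorem Sh_self (hx : x ∈ Pts V G) : Sh G x x := fun a b ha hb hab =>
  hx.2.2.2 a b (ha.elim id id) (hb.elim id id) hab

theorem Ch_left (h : Ch V G P x y c) : x ∈ Pts V G := by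
  cases h with
  | nil _ hx => exact hx
  | cons _ _ _ _ hx _ _ => exact hx

theorem Ch_right (h : Ch V G P x y c) : y ∈ Pts V G := by
  induction h with
  | nil _ hx => exact hx
  | cons _ _ _ _ _ _ _ ih => exact ih

theorem Ch_nonneg (h : Ch V G P x y c) : 0 ≤ c := by
  induction h with
  | nil _ hx => exact le_rfl
  | cons _ _ _ _ _ _ _ ih => positivity

theorem Ch_low (h : Ch V G P x y c) : ‖dev P x - dev P y‖ ≤ c := by
  induction h with
  | nil _ hx => simp
  | cons x y z c hx hs h ih =>
    calc ‖dev P x - dev P z‖ = ‖(dev P x - dev P y) + (dev P y - dev P z)‖ := by congr 1; ring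
      _ ≤ ‖dev P x - dev P y‖ + ‖dev P y - dev P z‖ := norm_add_le _ _
      _ ≤ _ := by linarith

theorem Ch_trans (h₁ : Ch V G P x y c) (h₂ : Ch V G P y z c') : Ch V G P x z (c + c') := by
  induction h₁ with
  | nil _ hx => rw [zero_add]; exact h₂
  | cons x w y c hx hs h ih =>
    rw [add_assoc]
    exact Ch.cons x w z _ hx hs (ih h₂)

theorem Ch_step (hx : x ∈ Pts V G) (hy : y ∈ Pts V G) (hs : Sh G x y) :
    Ch V G P x y ‖dev P x - dev P y‖ := by
  have := Ch.cons (P := P) x y y 0 hx hs (Ch.nil y hy)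
  rwa [add_zero] at this

theorem Ch_symm (h : Ch V G P x y c) : Ch V G P y x c := by
  induction h with
  | nil x hx => exact Ch.nil x hx
  | cons x w y c hx hs h ih =>
    rw [add_comm]
    refine Ch_trans ih ?_
    rw [norm_sub_rev]
    exact Ch_step (Ch_right ih) hx (Sh_symm hs)

/-! ### indexed chains -/

/-- chain with `n` steps -/
structure IsC (V : Finset (Fin N)) (G : SimpleGraph (Fin N)) (n : ℕ) (z : ℕ → (Fin N → ℝ)) :
    Prop where
  mem : ∀ i ≤ n, z i ∈ Pts V G
  sh : ∀ i < n, Sh G (z i) (z (i + 1))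

/-- its length -/
noncomputable def len (P : Fin N → ℂ) (n : ℕ) (z : ℕ → (Fin N → ℝ)) : ℝ :=
  ∑ i ∈ range n, ‖dev P (z i) - dev P (z (i + 1))‖

theorem len_add (P : Fin N → ℂ) (a b : ℕ) (z : ℕ → (Fin N → ℝ)) :
    len P (a + b) z = len P a z + len P b (fun k => z (a + k)) := by
  unfold len
  rw [Finset.sum_range_add]
  rfl

theorem low_len (P : Fin N → ℂ) (n : ℕ) (z : ℕ → (Fin N → ℝ)) :
    ‖dev P (z 0) - dev P (z n)‖ ≤ len P n z := by
  have := dist_le_range_sum_dist (fun i => dev P (z i)) n
  simpa only [dist_eq_norm, len] using this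

theorem IsC_shift {n a b : ℕ} {z : ℕ → (Fin N → ℝ)} (h : IsC V G n z) (hn : a + b ≤ n) :
    IsC V G b (fun k => z (a + k)) :=
  ⟨fun i hi => h.mem _ (by omega), fun i hi => h.sh _ (by omega)⟩

theorem Ch_of_IsC (P : Fin N → ℂ) (n : ℕ) : ∀ {z : ℕ → (Fin N → ℝ)}, IsC V G n z →
    Ch V G P (z 0) (z n) (len P n z) := by
  induction n with
  | zero =>
    intro z h
    unfold len
    simp only [range_zero, sum_empty]
    exact Ch.nil _ (h.mem 0 le_rfl)
  | succ n ih =>
    intro z h
    have h1 : IsC V G n z := ⟨fun i hi => h.mem i (by omega), fun i hi => h.sh i (by omega)⟩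
    have h2 : len P (n + 1) z = len P n z + ‖dev P (z n) - dev P (z (n + 1))‖ := by
      unfold len
      rw [Finset.sum_range_succ]
    rw [h2]
    exact Ch_trans (ih h1) (Ch_step (h.mem n (by omega)) (h.mem (n + 1) le_rfl)
      (h.sh n (by omega)))

theorem IsC_of_Ch (h : Ch V G P x y c) : ∃ (n : ℕ) (z : ℕ → (Fin N → ℝ)), IsC V G n z ∧
    z 0 = x ∧ z n = y ∧ len P n z = c := by
  induction h with
  | nil x hx =>
    refine ⟨0, fun _ => x, ⟨fun _ _ => hx, fun i hi => absurd hi (by omega)⟩, rfl, rfl, ?_⟩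
    simp [len]
  | cons x w y c hx hs h ih =>
    obtain ⟨n, z, hz, h0, hn, hl⟩ := ih
    refine ⟨n + 1, fun k => if k = 0 then x else z (k - 1), ⟨?_, ?_⟩, by simp, by simp [hn], ?_⟩
    · intro i hi
      by_cases h : i = 0
      · simp only [h, if_true]; exact hx
      · simp only [h, if_false]; exact hz.mem _ (by omega)
    · intro i hi
      by_cases h : i = 0
      · subst h
        simp only [if_true, zero_add, one_ne_zero, if_false, Nat.sub_self, h0]
        exact hs
      · simp only [h, if_false, Nat.add_eq_zero_iff, one_ne_zero, and_false, Nat.add_sub_cancel]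
        have := hz.sh (i - 1) (by omega)
        rwa [Nat.sub_add_cancel (by omega)] at this
    · unfold len at hl ⊢
      rw [Finset.sum_range_succ', add_comm, ← hl]
      simp [h0]

/-- clique of a step -/
noncomputable def supS (z : ℕ → (Fin N → ℝ)) (i : ℕ) : Finset (Fin N) :=
  univ.filter fun v => z i v ≠ 0 ∨ z (i + 1) v ≠ 0

theorem shorten (V : Finset (Fin N)) (G : SimpleGraph (Fin N)) (n : ℕ) :
    ∀ z : ℕ → (Fin N → ℝ), IsC V G n z → ∃ n' ≤ 2 ^ N, ∃ z' : ℕ → (Fin N → ℝ), IsC V G n' z' ∧
      z' 0 = z 0 ∧ z' n' = z n ∧ ∀ P : Fin N → ℂ, len P n' z' ≤ len P n z := by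
  induction n using Nat.strong_induction_on with
  | _ n ih =>
    intro z hz
    by_cases hn : n ≤ 2 ^ N
    · exact ⟨n, hn, z, hz, rfl, rfl, fun _ => le_rfl⟩
    · push Not at hn
      have hcard : (univ : Finset (Finset (Fin N))).card < (range n).card := by
        rw [card_range, card_univ, Fintype.card_finset, Fintype.card_fin]
        exact hn
      obtain ⟨i, hi, j, hj, hij, heq⟩ := Finset.exists_ne_map_eq_of_card_lt_of_maps_to hcard
        (f := supS z) (fun _ _ => mem_coe.2 (mem_univ _))
      rw [mem_range] at hi hj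
      wlog hlt : i < j generalizing i j
      · exact this j hj i hi hij.symm heq.symm (by omega)
      obtain ⟨m, hm⟩ : ∃ m, n = j + 1 + m := ⟨n - (j + 1), by omega⟩
      set z' : ℕ → (Fin N → ℝ) := fun k => if k ≤ i then z k else z (j + 1 + (k - (i + 1)))
        with hz'
      have e1 : ∀ k ≤ i, z' k = z k := fun k hk => by simp only [hz', if_pos hk]
      have e2 : ∀ k, z' (i + 1 + k) = z (j + 1 + k) := fun k => by
        simp only [hz', if_neg (show ¬ (i + 1 + k ≤ i) by omega), Nat.add_sub_cancel_left]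
      have hsh : Sh G (z i) (z (j + 1)) := by
        intro a b ha hb hab
        have ha' : a ∈ supS z i := by
          rcases ha with ha | ha
          · simp [supS, ha]
          · rw [heq]; simp [supS, ha]
        have hb' : b ∈ supS z i := by
          rcases hb with hb | hb
          · simp [supS, hb]
          · rw [heq]; simp [supS, hb]
        simp only [supS, mem_filter, mem_univ, true_and] at ha' hb'
        exact hz.sh i hi a b ha' hb' hab
      have hc' : IsC V G (i + 1 + m) z' := by
        constructor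
        · intro k hk
          by_cases h : k ≤ i
          · rw [e1 k h]; exact hz.mem k (by omega)
          · obtain ⟨l, rfl⟩ : ∃ l, k = i + 1 + l := ⟨k - (i + 1), by omega⟩
            rw [e2]; exact hz.mem _ (by omega)
        · intro k hk
          rcases lt_trichotomy k i with h | h | h
          · rw [e1 k h.le, e1 (k + 1) h]; exact hz.sh k (by omega)
          · subst h
            have := e2 0
            simp only [add_zero] at this
            rw [e1 k le_rfl, this]
            exact hsh
          · obtain ⟨l, rfl⟩ : ∃ l, k = i + 1 + l := ⟨k - (i + 1), by omega⟩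
            rw [e2 l, show i + 1 + l + 1 = i + 1 + (l + 1) by omega, e2 (l + 1)]
            exact hz.sh (j + 1 + l) (by omega)
      obtain ⟨n', hn', z'', h1, h2, h3, h4⟩ := ih (i + 1 + m) (by omega) z' hc'
      refine ⟨n', hn', z'', h1, by rw [h2, e1 0 (by omega)], by rw [h3, e2, hm], fun P => ?_⟩
      refine (h4 P).trans ?_
      have a1 : len P (i + 1 + m) z' = len P i z + ‖dev P (z i) - dev P (z (j + 1))‖ +
          len P m (fun k => z (j + 1 + k)) := by
        rw [len_add]
        congr 1
        · unfold len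
          rw [Finset.sum_range_succ]
          have := e2 0
          simp only [add_zero] at this
          rw [this, e1 i le_rfl]
          congr 1
          refine Finset.sum_congr rfl fun k hk => ?_
          rw [mem_range] at hk
          rw [e1 k hk.le, e1 (k + 1) hk]
        · unfold len
          refine Finset.sum_congr rfl fun k _ => ?_
          simp only [e2]
      have a2 : len P n z = len P (j + 1) z + len P m (fun k => z (j + 1 + k)) := by
        rw [hm, len_add]
      have a3 : len P i z + ‖dev P (z i) - dev P (z (j + 1))‖ ≤ len P (j + 1) z := by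
        have b1 : len P (j + 1) z = len P i z + len P (j + 1 - i) (fun k => z (i + k)) := by
          rw [← len_add]
          congr 1
          omega
        have b2 := low_len P (j + 1 - i) (fun k => z (i + k))
        simp only [add_zero] at b2
        rw [show i + (j + 1 - i) = j + 1 by omega] at b2
        linarith
      linarith

/-- padding: chains with exactly `2 ^ N` steps -/
theorem shorten' {n : ℕ} {z : ℕ → (Fin N → ℝ)} (hz : IsC V G n z) :
    ∃ z' : ℕ → (Fin N → ℝ), IsC V G (2 ^ N) z' ∧ z' 0 = z 0 ∧ z' (2 ^ N) = z n ∧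
      ∀ P : Fin N → ℂ, len P (2 ^ N) z' ≤ len P n z := by
  obtain ⟨n', hn', z', h1, h2, h3, h4⟩ := shorten V G n z hz
  refine ⟨fun k => z' (min k n'), ⟨fun i _ => h1.mem _ (min_le_right _ _), fun i hi => ?_⟩,
    by simpa using h2, by simpa [min_eq_right hn'] using h3, fun P => ?_⟩
  · rcases lt_or_ge i n' with h | h
    · simp only [min_eq_left h.le, min_eq_left (show i + 1 ≤ n' from h)]
      exact h1.sh i h
    · simp only [min_eq_right h, min_eq_right (show n' ≤ i + 1 by omega)]
      exact Sh_self (h1.mem _ le_rfl)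
  · refine le_trans (le_of_eq ?_) (h4 P)
    unfold len
    rw [← Finset.sum_subset (Finset.range_subset_range.2 hn')]
    · refine Finset.sum_congr rfl fun k hk => ?_
      rw [mem_range] at hk
      simp only [min_eq_left hk.le, min_eq_left (show k + 1 ≤ n' from hk)]
    · intro k _ hk
      rw [mem_range, not_lt] at hk
      simp only [min_eq_right hk, min_eq_right (show n' ≤ k + 1 by omega), sub_self, norm_zero]

/-! ### compactness -/

theorem continuous_dev (P : Fin N → ℂ) : Continuous (dev P) := by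
  unfold dev
  refine continuous_finsetSum _ fun v _ => ?_
  exact (Complex.continuous_ofReal.comp (continuous_apply v)).mul continuous_const

theorem isClosed_Pts (V : Finset (Fin N)) (G : SimpleGraph (Fin N)) : IsClosed (Pts V G) := by
  have h : Pts V G = (⋂ v, {x : Fin N → ℝ | 0 ≤ x v}) ∩ ({x | ∑ v, x v = 1} ∩
      ((⋂ v, {x : Fin N → ℝ | v ∈ V ∨ x v = 0}) ∩
      ⋂ a, ⋂ b, {x : Fin N → ℝ | (a = b ∨ G.Adj a b) ∨ (x a = 0 ∨ x b = 0)})) := by
    ext x
    simp only [Pts, Set.mem_ofPred_eq, Set.mem_inter_iff, Set.mem_iInter]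
    refine and_congr_right fun _ => and_congr_right fun _ => and_congr ?_ ?_
    · refine forall_congr' fun v => ?_
      tauto
    · refine forall_congr' fun a => forall_congr' fun b => ?_
      tauto
  rw [h]
  refine IsClosed.inter (isClosed_iInter fun v => isClosed_le continuous_const
    (continuous_apply v)) (IsClosed.inter (isClosed_eq (by fun_prop) continuous_const)
    (IsClosed.inter (isClosed_iInter fun v => ?_) (isClosed_iInter fun a =>
    isClosed_iInter fun b => ?_)))
  · by_cases hv : v ∈ V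
    · simp [hv]
    · simp only [hv, false_or]
      exact isClosed_eq (continuous_apply v) continuous_const
  · by_cases hab : a = b ∨ G.Adj a b
    · simp [hab]
    · simp only [hab, false_or]
      exact (isClosed_eq (continuous_apply a) continuous_const).union
        (isClosed_eq (continuous_apply b) continuous_const)

theorem isCompact_Pts (V : Finset (Fin N)) (G : SimpleGraph (Fin N)) : IsCompact (Pts V G) := by
  refine IsCompact.of_isClosed_subset (isCompact_univ_pi fun _ : Fin N => isCompact_Icc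
    (a := (0 : ℝ)) (b := 1)) (isClosed_Pts V G) ?_
  intro x hx v _
  refine ⟨hx.1 v, ?_⟩
  rw [← hx.2.1]
  exact Finset.single_le_sum (fun i _ => hx.1 i) (mem_univ v)

theorem isClosed_Sh (G : SimpleGraph (Fin N)) :
    IsClosed {q : (Fin N → ℝ) × (Fin N → ℝ) | Sh G q.1 q.2} := by
  have h : {q : (Fin N → ℝ) × (Fin N → ℝ) | Sh G q.1 q.2} = ⋂ a, ⋂ b,
      {q : (Fin N → ℝ) × (Fin N → ℝ) | (a = b ∨ G.Adj a b) ∨
        ((q.1 a = 0 ∧ q.2 a = 0) ∨ (q.1 b = 0 ∧ q.2 b = 0))} := by
    ext q
    simp only [Sh, Set.mem_ofPred_eq, Set.mem_iInter]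
    refine forall_congr' fun a => forall_congr' fun b => ?_
    tauto
  rw [h]
  refine isClosed_iInter fun a => isClosed_iInter fun b => ?_
  by_cases hab : a = b ∨ G.Adj a b
  · simp [hab]
  · simp only [hab, false_or]
    have c1 : ∀ v : Fin N, Continuous fun q : (Fin N → ℝ) × (Fin N → ℝ) => q.1 v := fun v =>
      (continuous_apply v).comp continuous_fst
    have c2 : ∀ v : Fin N, Continuous fun q : (Fin N → ℝ) × (Fin N → ℝ) => q.2 v := fun v =>
      (continuous_apply v).comp continuous_snd
    exact ((isClosed_eq (c1 a) continuous_const).inter (isClosed_eq (c2 a) continuous_const)).union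
      ((isClosed_eq (c1 b) continuous_const).inter (isClosed_eq (c2 b) continuous_const))

/-- the infimum is attained as soon as there is a chain -/
theorem att (h : ∃ c, Ch V G P x y c) : Ch V G P x y (dK V G P x y) := by
  set K := 2 ^ N with hK
  set Z : Set (Fin (K + 1) → (Fin N → ℝ)) := {z | (∀ i, z i ∈ Pts V G) ∧ z 0 = x ∧
    z (Fin.last K) = y ∧ ∀ i : Fin K, Sh G (z i.castSucc) (z i.succ)} with hZ
  set l : (Fin (K + 1) → (Fin N → ℝ)) → ℝ := fun z =>
    ∑ i : Fin K, ‖dev P (z i.castSucc) - dev P (z i.succ)‖ with hl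
  have hlc : Continuous l := by
    refine continuous_finsetSum _ fun i _ => ?_
    exact (((continuous_dev P).comp (continuous_apply _)).sub
      ((continuous_dev P).comp (continuous_apply _))).norm
  have hZc : IsCompact Z := by
    have h1 : IsCompact (Set.univ.pi fun _ : Fin (K + 1) => Pts V G) :=
      isCompact_univ_pi fun _ => isCompact_Pts V G
    have h2 : Z = (Set.univ.pi fun _ : Fin (K + 1) => Pts V G) ∩ ({z | z 0 = x} ∩
        ({z | z (Fin.last K) = y} ∩ ⋂ i : Fin K, {z | Sh G (z i.castSucc) (z i.succ)})) := by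
      ext z
      simp [hZ]
    rw [h2]
    refine h1.inter_right (IsClosed.inter (isClosed_eq (continuous_apply _) continuous_const)
      (IsClosed.inter (isClosed_eq (continuous_apply _) continuous_const)
        (isClosed_iInter fun i => ?_)))
    have hc : Continuous (fun z : Fin (K + 1) → (Fin N → ℝ) => (z i.castSucc, z i.succ)) :=
      (continuous_apply _).prodMk (continuous_apply _)
    exact (isClosed_Sh G).preimage hc
  -- from chains to `Z`
  have hto : ∀ c, Ch V G P x y c → ∃ z ∈ Z, l z ≤ c := by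
    intro c hc
    obtain ⟨n, z, hz, h0, hn, rfl⟩ := IsC_of_Ch hc
    obtain ⟨z', h1, h2, h3, h4⟩ := shorten' hz
    refine ⟨fun i => z' i, ⟨fun i => h1.mem _ (by omega), by simpa using h2.trans h0,
      by simpa using h3.trans hn, fun i => ?_⟩, ?_⟩
    · have := h1.sh i.val i.isLt
      simpa using this
    · refine le_trans (le_of_eq ?_) (h4 P)
      simp only [hl, len]
      rw [Finset.sum_range]
      simp only [Fin.val_castSucc, Fin.val_succ]
      rfl
  -- from `Z` to chains
  have hfrom : ∀ z ∈ Z, Ch V G P x y (l z) := by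
    intro z hz
    set z' : ℕ → (Fin N → ℝ) := fun k => z ⟨min k K, by omega⟩ with hz'
    have e : ∀ k (hk : k ≤ K), z' k = z ⟨k, by omega⟩ := by
      intro k hk
      simp only [hz', min_eq_left hk]
    have h1 : IsC V G K z' := by
      constructor
      · intro i hi
        exact hz.1 _
      · intro i hi
        rw [e i hi.le, e (i + 1) hi]
        exact hz.2.2.2 ⟨i, hi⟩
    have h2 := Ch_of_IsC P K h1
    have h3 : len P K z' = l z := by
      simp only [hl, len]
      rw [Finset.sum_range]
      refine Finset.sum_congr rfl fun i _ => ?_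
      rw [e i.val i.isLt.le, e (i.val + 1) i.isLt]
      rfl
    rw [h3, e 0 (Nat.zero_le K), e K le_rfl] at h2
    have e0 : z ⟨0, Nat.succ_pos K⟩ = x := hz.2.1
    have eK : z ⟨K, Nat.lt_succ_self K⟩ = y := hz.2.2.1
    rw [e0, eK] at h2
    exact h2
  obtain ⟨c₀, hc₀⟩ := h
  obtain ⟨z₀, hz₀, -⟩ := hto c₀ hc₀
  obtain ⟨z, hz, hmin⟩ := hZc.exists_isMinOn ⟨z₀, hz₀⟩ hlc.continuousOn
  have hd : dK V G P x y = l z := by
    refine le_antisymm (csInf_le ⟨0, fun c hc => Ch_nonneg hc⟩ (hfrom z hz)) ?_
    refine le_csInf ⟨c₀, hc₀⟩ fun c hc => ?_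
    obtain ⟨z', hz', hle⟩ := hto c hc
    exact (hmin hz').trans hle
  rw [hd]
  exact hfrom z hz

/-! ### connectedness -/

theorem exists_supp (hx : x ∈ Pts V G) : ∃ v ∈ V, x v ≠ 0 ∧ Sh G x (dl v) := by
  have h : ∃ v, x v ≠ 0 := by
    by_contra hno
    push Not at hno
    have := hx.2.1
    simp [hno] at this
  obtain ⟨v, hv⟩ := h
  refine ⟨v, hx.2.2.1 v hv, hv, ?_⟩
  have key : ∀ a, (x a ≠ 0 ∨ dl v a ≠ 0) → x a ≠ 0 := by
    intro a ha
    rcases ha with ha | ha
    · exact ha
    · unfold dl at ha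
      rw [Pi.single_apply] at ha
      split_ifs at ha with h
      · rw [h]; exact hv
      · exact absurd rfl ha
  intro a b ha hb hab
  exact hx.2.2.2 a b (key a ha) (key b hb) hab

theorem vertex_conn (hB : stBdAdj) (ht : IsTri V G) (P : Fin N → ℂ) {b : Fin N} (hb : b ∈ V)
    (n : ℕ) : ∀ a ∈ V, cyc a b = n → ∃ c, Ch V G P (dl a) (dl b) c := by
  induction n using Nat.strong_induction_on with
  | _ n ih =>
    intro a ha hn
    by_cases hab : b = a
    · subst hab
      exact ⟨0, Ch.nil _ (dl_mem G ha)⟩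
    · have hne : (V.erase a).Nonempty := ⟨b, mem_erase.2 ⟨hab, hb⟩⟩
      obtain ⟨a', ha', hmin⟩ := Finset.exists_min_image (V.erase a) (fun v => cyc a v) hne
      rw [mem_erase] at ha'
      have hbd : Bd V a a' := by
        refine ⟨ha, ha'.2, fun h => ha'.1 h.symm, Or.inl fun v hv hc => ?_⟩
        have h1 : v ≠ a := cyc_pos.1 hc.1
        have h2 := hmin v (mem_erase.2 ⟨h1, hv⟩)
        have h3 := hc.2
        omega
      have hadj := hB N V G ht a a' hbd
      have hle := hmin b (mem_erase.2 ⟨hab, hb⟩)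
      have h4 : cyc a' b = cyc a b - cyc a a' := cyc_change_le hle
      have h5 : 0 < cyc a a' := cyc_pos.2 ha'.1
      have h6 : 0 < cyc a b := cyc_pos.2 hab
      obtain ⟨c, hc⟩ := ih (cyc a' b) (by omega) a' ha'.2 rfl
      refine ⟨_, Ch.cons (dl a) (dl a') (dl b) c (dl_mem G ha) ?_ hc⟩
      have key : ∀ u, (dl a u ≠ 0 ∨ dl a' u ≠ 0) → u = a ∨ u = a' := by
        intro u hu
        unfold dl at hu
        rw [Pi.single_apply, Pi.single_apply] at hu
        by_contra hcon
        push Not at hcon
        rw [if_neg hcon.1, if_neg hcon.2] at hu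
        rcases hu with hu | hu <;> exact hu rfl
      intro u v hu hv huv
      rcases key u hu with rfl | rfl <;> rcases key v hv with rfl | rfl
      · exact absurd rfl huv
      · exact hadj
      · exact hadj.symm
      · exact absurd rfl huv

theorem conn (hB : stBdAdj) (ht : IsTri V G) (P : Fin N → ℂ) (hx : x ∈ Pts V G)
    (hy : y ∈ Pts V G) : ∃ c, Ch V G P x y c := by
  obtain ⟨a, ha, -, hxa⟩ := exists_supp hx
  obtain ⟨b, hb, -, hyb⟩ := exists_supp hy
  obtain ⟨c, hc⟩ := vertex_conn hB ht P hb _ a ha rfl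
  exact ⟨_, Ch_trans (Ch_step hx (dl_mem G ha) hxa) (Ch_trans hc
    (Ch_step (dl_mem G hb) hy (Sh_symm hyb)))⟩

theorem dK_le (h : Ch V G P x y c) : dK V G P x y ≤ c :=
  csInf_le ⟨0, fun _ hc => Ch_nonneg hc⟩ h

theorem dK_nonneg (V : Finset (Fin N)) (G : SimpleGraph (Fin N)) (P : Fin N → ℂ)
    (x y : Fin N → ℝ) : 0 ≤ dK V G P x y :=
  Real.sInf_nonneg fun _ hc => Ch_nonneg hc

theorem dK_symm (V : Finset (Fin N)) (G : SimpleGraph (Fin N)) (P : Fin N → ℂ)
    (x y : Fin N → ℝ) : dK V G P x y = dK V G P y x := by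
  unfold dK
  congr 1
  ext c
  exact ⟨Ch_symm, Ch_symm⟩

theorem metP (hB : stBdAdj) (ht : IsTri V G) (P : Fin N → ℂ) : MetP V G P := by
  have hatt : ∀ x ∈ Pts V G, ∀ y ∈ Pts V G, Ch V G P x y (dK V G P x y) :=
    fun x hx y hy => att (conn hB ht P hx hy)
  have hlow : ∀ x ∈ Pts V G, ∀ y ∈ Pts V G, ‖dev P x - dev P y‖ ≤ dK V G P x y :=
    fun x hx y hy => Ch_low (hatt x hx y hy)
  refine ⟨fun x _ y _ => dK_nonneg _ _ _ _ _, fun x _ y _ => dK_symm _ _ _ _ _, fun x hx => ?_,
    fun x hx y hy z hz => dK_le (Ch_trans (hatt x hx y hy) (hatt y hy z hz)), hlow,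
    fun x hx y hy hs => le_antisymm (dK_le (Ch_step hx hy hs)) (hlow x hx y hy), hatt⟩
  exact le_antisymm (dK_le (Ch.nil x hx)) (dK_nonneg _ _ _ _ _)

/-- **stMet** -/
theorem met (hB : stBdAdj) : stMet := fun _ _ _ P ht => metP hB ht P

end Pool.Agent.Helper88.GP
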