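import Pool.Agent.Helper88.GP.Met

/-!
# GP, chapter MET: positive discs
-/

namespace Pool.Agent.Helper88.GP

open Pool.Agent.Helper18.GP Relation Finset Filter Topology

variable {N : ℕ} {V : Finset (Fin N)} {G : SimpleGraph (Fin N)} {P : Fin N → ℂ}
  {x y z : Fin N → ℝ} {c c' : ℝ}

/-- three different labels are in one of the two cyclic orders -/
theorem Ccw_total {a b c : Fin N} (hab : a ≠ b) (hac : a ≠ c) (hbc : b ≠ c) :
    Ccw a b c ∨ Ccw a c b := by
  unfold Ccw
  have h1 : 0 < cyc a b := cyc_pos.2 hab.symm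
  have h2 : 0 < cyc a c := cyc_pos.2 hac.symm
  have h3 : cyc a b ≠ cyc a c := fun h => hbc (cyc_inj h)
  omega

/-- a clique has at most three vertices -/
theorem no_four (ht : IsTri V G) {a b c d : Fin N} (ha : a ∈ V) (hb : b ∈ V) (hc : c ∈ V)
    (hd : d ∈ V) (hab : G.Adj a b) (hac : G.Adj a c) (had : G.Adj a d) (hbc : G.Adj b c)
    (hbd : G.Adj b d) (hcd : G.Adj c d) : False := by
  have h1 : 0 < cyc a b := cyc_pos.2 hab.ne.symm
  have h2 : 0 < cyc a c := cyc_pos.2 hac.ne.symm
  have h3 : 0 < cyc a d := cyc_pos.2 had.ne.symm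
  have k1 : cyc a b ≠ cyc a c := fun h => hbc.ne (cyc_inj h)
  have k2 : cyc a b ≠ cyc a d := fun h => hbd.ne (cyc_inj h)
  have k3 : cyc a c ≠ cyc a d := fun h => hcd.ne (cyc_inj h)
  -- the middle one of `b`, `c`, `d` seen from `a` gives a crossing
  have key : ∀ u v w : Fin N, u ∈ V → v ∈ V → w ∈ V → G.Adj a v → G.Adj u w →
      0 < cyc a u → cyc a u < cyc a v → cyc a v < cyc a w → False := by
    intro u v w hu hv hw h4 h5 h6 h7 h8
    refine ht.nc a ha v hv u hu w hw h4 h5 (Or.inl ⟨⟨h6, h7⟩, ?_, h8⟩)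
    omega
  rcases lt_or_gt_of_ne k1 with h | h <;> rcases lt_or_gt_of_ne k2 with h' | h' <;>
    rcases lt_or_gt_of_ne k3 with h'' | h''
  · exact key b c d hb hc hd hac hbd h1 h h''
  · exact key b d c hb hd hc had hbc h1 h' h''
  · omega
  · exact key d b c hd hb hc hab hcd.symm h3 h' h
  · exact key c b d hc hb hd hab hcd h2 h h'
  · omega
  · exact key c d b hc hd hb had hbc.symm h2 h'' h'
  · exact key d c b hd hc hb hac hbd.symm h3 h'' h

theorem crs_indep {u v : ℂ} {s t : ℝ} (h : crs u v ≠ 0) (h0 : (s : ℂ) * u + (t : ℂ) * v = 0) :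
    s = 0 ∧ t = 0 := by
  have hr := congrArg Complex.re h0
  have hi := congrArg Complex.im h0
  simp only [Complex.add_re, Complex.add_im, Complex.re_ofReal_mul, Complex.im_ofReal_mul,
    Complex.zero_re, Complex.zero_im] at hr hi
  unfold crs at h
  constructor
  · have : s * (u.re * v.im - u.im * v.re) = 0 := by linear_combination v.im * hr - v.re * hi
    exact (mul_eq_zero.1 this).resolve_right h
  · have : t * (u.re * v.im - u.im * v.re) = 0 := by linear_combination u.re * hi - u.im * hr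
    exact (mul_eq_zero.1 this).resolve_right h

/-- two points of a common face with the same position are equal -/
theorem eq_of_dev_eq (ht : IsTri V G) (hst : St V G P)
    (hne : ∀ a ∈ V, ∀ b ∈ V, a ≠ b → G.Adj a b → P a ≠ P b) (hx : x ∈ Pts V G) (hy : y ∈ Pts V G)
    (hs : Sh G x y) (hd : dev P x = dev P y) : x = y := by
  by_contra hxy
  set h : Fin N → ℝ := fun v => x v - y v with hh
  obtain ⟨a, ha⟩ : ∃ a, h a ≠ 0 := by
    by_contra hno
    push Not at hno
    apply hxy
    funext v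
    have := hno v
    simp only [hh] at this
    linarith
  have hsup : ∀ v, h v ≠ 0 → x v ≠ 0 ∨ y v ≠ 0 := by
    intro v hv
    by_contra hcon
    push Not at hcon
    apply hv
    simp only [hh, hcon.1, hcon.2, sub_zero]
  have hV : ∀ v, h v ≠ 0 → v ∈ V := fun v hv => (hsup v hv).elim (hx.2.2.1 v) (hy.2.2.1 v)
  have hadj : ∀ u v, h u ≠ 0 → h v ≠ 0 → u ≠ v → G.Adj u v := fun u v hu hv huv =>
    hs u v (hsup u hu) (hsup v hv) huv
  have h1 : ∑ v, h v = 0 := by
    simp only [hh, Finset.sum_sub_distrib, hx.2.1, hy.2.1, sub_self]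
  have h2 : ∑ v, (h v : ℂ) * P v = 0 := by
    have : ∑ v, (h v : ℂ) * P v = dev P x - dev P y := by
      unfold dev
      rw [← Finset.sum_sub_distrib]
      refine Finset.sum_congr rfl fun v _ => ?_
      simp only [hh]
      push_cast
      ring
    rw [this, hd, sub_self]
  have h3 : ∑ v, (h v : ℂ) * (P v - P a) = 0 := by
    simp only [mul_sub, Finset.sum_sub_distrib, ← Finset.sum_mul, h2]
    have : ∑ v, (h v : ℂ) = 0 := by
      rw [← Complex.ofReal_sum, h1, Complex.ofReal_zero]
    rw [this]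
    ring
  -- the other vertices of the support
  set S : Finset (Fin N) := univ.filter (fun v => h v ≠ 0 ∧ v ≠ a) with hS
  have hmem : ∀ v, v ∈ S ↔ h v ≠ 0 ∧ v ≠ a := fun v => by simp [hS]
  have h4 : ∑ v ∈ S, (h v : ℂ) * (P v - P a) = 0 := by
    rw [← h3]
    refine Finset.sum_subset (subset_univ _) fun v _ hv => ?_
    by_cases hva : v = a
    · rw [hva, sub_self, mul_zero]
    · have : h v = 0 := by
        by_contra hc
        exact hv ((hmem v).2 ⟨hc, hva⟩)
      rw [this, Complex.ofReal_zero, zero_mul]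
  have h5 : ∑ v ∈ S, h v = -h a := by
    have : ∑ v, h v = h a + ∑ v ∈ S, h v := by
      rw [← Finset.add_sum_erase _ _ (mem_univ a)]
      congr 1
      symm
      refine Finset.sum_subset (fun v hv => mem_erase.2 ⟨((hmem v).1 hv).2, mem_univ _⟩)
        fun v hv hv' => ?_
      by_contra hc
      exact hv' ((hmem v).2 ⟨hc, (mem_erase.1 hv).1⟩)
    linarith
  have hcard : S.card ≤ 2 := by
    by_contra hc
    push Not at hc
    obtain ⟨T, hT, hT3⟩ := Finset.exists_subset_card_eq (show 3 ≤ S.card from hc)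
    obtain ⟨b, c, d, hbc, hbd, hcd, rfl⟩ := Finset.card_eq_three.1 hT3
    have hb := (hmem b).1 (hT (by simp))
    have hc' := (hmem c).1 (hT (by simp))
    have hd' := (hmem d).1 (hT (by simp))
    exact no_four ht (hV a ha) (hV b hb.1) (hV c hc'.1) (hV d hd'.1)
      (hadj a b ha hb.1 hb.2.symm) (hadj a c ha hc'.1 hc'.2.symm) (hadj a d ha hd'.1 hd'.2.symm)
      (hadj b c hb.1 hc'.1 hbc) (hadj b d hb.1 hd'.1 hbd) (hadj c d hc'.1 hd'.1 hcd)
  interval_cases hk : S.card
  · rw [Finset.card_eq_zero] at hk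
    rw [hk, Finset.sum_empty] at h5
    exact ha (by linarith)
  · obtain ⟨b, hb⟩ := Finset.card_eq_one.1 hk
    have hbS := (hmem b).1 (by rw [hb]; simp)
    rw [hb, Finset.sum_singleton] at h4
    rcases mul_eq_zero.1 h4 with h6 | h6
    · exact hbS.1 (by exact_mod_cast h6)
    · exact hne b (hV b hbS.1) a (hV a ha) hbS.2 (hadj b a hbS.1 ha hbS.2) (sub_eq_zero.1 h6)
  · obtain ⟨b, c, hbc, hbc'⟩ := Finset.card_eq_two.1 hk
    have hbS := (hmem b).1 (by rw [hbc']; simp)
    have hcS := (hmem c).1 (by rw [hbc']; simp)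
    rw [hbc', Finset.sum_pair hbc] at h4
    have hcr : crs (P b - P a) (P c - P a) ≠ 0 := by
      rcases Ccw_total hbS.2.symm hcS.2.symm hbc with h6 | h6
      · exact (hst a (hV a ha) b (hV b hbS.1) c (hV c hcS.1) h6 (hadj a b ha hbS.1 hbS.2.symm)
          (hadj b c hbS.1 hcS.1 hbc) (hadj a c ha hcS.1 hcS.2.symm)).ne'
      · have h7 := hst a (hV a ha) c (hV c hcS.1) b (hV b hbS.1) h6
          (hadj a c ha hcS.1 hcS.2.symm) (hadj c b hcS.1 hbS.1 hbc.symm)
          (hadj a b ha hbS.1 hbS.2.symm)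
        intro h8
        have : crs (P c - P a) (P b - P a) = - crs (P b - P a) (P c - P a) := by
          unfold crs; ring
        rw [this, h8] at h7
        linarith
    exact hbS.1 (crs_indep hcr h4).1

/-- **stPos** -/
theorem pos (hB : stBdAdj) : stPos := by
  intro N V G P ht hst hne x hx y hy h0
  have h := (metP hB ht P).att x hx y hy
  rw [h0] at h
  have key : ∀ {u v : Fin N → ℝ} {c : ℝ}, Ch V G P u v c → c = 0 → u = v := by
    intro u v c hc
    induction hc with
    | nil u hu => intro _; rfl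
    | cons u w v c hu hs hc ih =>
      intro h0
      have h1 := norm_nonneg (dev P u - dev P w)
      have h2 := Ch_nonneg hc
      have h3 : ‖dev P u - dev P w‖ = 0 := by linarith
      have h4 : c = 0 := by linarith
      rw [← ih h4]
      exact eq_of_dev_eq ht hst hne hu (Ch_left hc) hs (sub_eq_zero.1 (norm_eq_zero.1 h3))
  exact key h rfl

end Pool.Agent.Helper88.GP
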