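import Pool.Agent.Helper88.GP.Glue

/-!
# GP, chapter MET: flips
-/

namespace Pool.Agent.Helper88.GP

open Pool.Agent.Helper18.GP Relation Finset Filter Topology

variable {N : ℕ} {V : Finset (Fin N)} {G G' : SimpleGraph (Fin N)} {P : Fin N → ℂ}
  {x y z : Fin N → ℝ} {a b c d : Fin N}

/-- interleaving in terms of the positions seen from `o` -/
theorem Crs_iff (o x y u v : Fin N) : Crs x y u v ↔
    (cyc o x < cyc o u ∧ cyc o u < cyc o y ∧ (cyc o v < cyc o x ∨ cyc o y < cyc o v)) ∨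
    (cyc o x < cyc o v ∧ cyc o v < cyc o y ∧ (cyc o u < cyc o x ∨ cyc o y < cyc o u)) ∨
    (cyc o y < cyc o u ∧ cyc o u < cyc o x ∧ (cyc o v < cyc o y ∨ cyc o x < cyc o v)) ∨
    (cyc o y < cyc o v ∧ cyc o v < cyc o x ∧ (cyc o u < cyc o y ∨ cyc o x < cyc o u)) := by
  have hx := cyc_lt o x
  have hy := cyc_lt o y
  have hu := cyc_lt o u
  have hv := cyc_lt o v
  unfold Crs Ccw
  rw [cyc_change o x u, cyc_change o x y, cyc_change o x v]
  split_ifs <;> omega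

theorem Ccw_iff (o x y z : Fin N) : Ccw x y z ↔
    (cyc o x < cyc o y ∧ cyc o y < cyc o z) ∨ (cyc o y < cyc o z ∧ cyc o z < cyc o x) ∨
    (cyc o z < cyc o x ∧ cyc o x < cyc o y) := by
  have hx := cyc_lt o x
  have hy := cyc_lt o y
  have hz := cyc_lt o z
  unfold Ccw
  rw [cyc_change o x y, cyc_change o x z]
  split_ifs <;> omega

theorem Crs_sw {p q r s : Fin N} (h : Crs p q r s) : Crs q p r s := by
  rw [Crs_iff p] at h ⊢
  have := cyc_self p
  omega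

theorem Crs_comm {p q r s : Fin N} (h : Crs p q r s) : Crs r s p q := by
  rw [Crs_iff p] at h ⊢
  have := cyc_self p
  omega

theorem Crs_irr {p q : Fin N} : ¬ Crs p q p q := by
  intro h
  rw [Crs_iff p] at h
  have := cyc_self p
  omega

theorem cross_quad {a b c d p q : Fin N} (habc : Ccw a b c) (hacd : Ccw a c d)
    (h : Crs p q a c) :
    Crs p q a b ∨ Crs p q b c ∨ Crs p q c d ∨ Crs p q d a ∨ (p = b ∧ q = d) ∨ (p = d ∧ q = b) := by
  have e0 : cyc a a = 0 := cyc_self a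
  have e1 := habc.1
  have e2 := habc.2
  have e3 := hacd.2
  have key : ∀ p q : Fin N, 0 < cyc a p → cyc a p < cyc a c → cyc a c < cyc a q →
      Crs p q a b ∨ Crs p q b c ∨ Crs p q c d ∨ Crs p q d a ∨ (p = b ∧ q = d) ∨
        (p = d ∧ q = b) := by
    intro p q h1 h2 h3
    rcases lt_trichotomy (cyc a p) (cyc a b) with h4 | h4 | h4
    · left
      rw [Crs_iff a]
      rw [e0]
      refine Or.inr (Or.inl ⟨h4, by omega, Or.inl h1⟩)
    · rcases lt_trichotomy (cyc a q) (cyc a d) with h5 | h5 | h5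
      · right; right; left
        rw [Crs_iff a]
        refine Or.inl ⟨h2, h3, Or.inr h5⟩
      · right; right; right; right; left
        exact ⟨cyc_inj h4, cyc_inj h5⟩
      · right; right; right; left
        rw [Crs_iff a, e0]
        refine Or.inl ⟨by omega, h5, Or.inl h1⟩
    · right; left
      rw [Crs_iff a]
      refine Or.inr (Or.inl ⟨h2, h3, Or.inl h4⟩)
  rw [Crs_iff a, e0] at h
  rcases h with ⟨h1, h2, h3⟩ | ⟨h1, h2, h3⟩ | ⟨h1, h2, h3⟩ | ⟨h1, h2, h3⟩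
  · omega
  · exact key p q (by omega) h1 h2
  · omega
  · rcases key q p (by omega) h1 h2 with h | h | h | h | h | h
    · exact Or.inl (Crs_sw h)
    · exact Or.inr (Or.inl (Crs_sw h))
    · exact Or.inr (Or.inr (Or.inl (Crs_sw h)))
    · exact Or.inr (Or.inr (Or.inr (Or.inl (Crs_sw h))))
    · exact Or.inr (Or.inr (Or.inr (Or.inr (Or.inr ⟨h.2, h.1⟩))))
    · exact Or.inr (Or.inr (Or.inr (Or.inr (Or.inl ⟨h.2, h.1⟩))))

/-- `G'` is obtained from `G` by the flip `ac -> bd` -/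
structure Fl (V : Finset (Fin N)) (G G' : SimpleGraph (Fin N)) (a b c d : Fin N) : Prop where
  tri : IsTri V G
  tri' : IsTri V G'
  aV : a ∈ V
  bV : b ∈ V
  cV : c ∈ V
  dV : d ∈ V
  abc : Ccw a b c
  acd : Ccw a c d
  ab : G.Adj a b
  bc : G.Adj b c
  cd : G.Adj c d
  da : G.Adj d a
  ac : G.Adj a c
  nbd : ¬ G.Adj b d
  adj : ∀ x ∈ V, ∀ y ∈ V, (G'.Adj x y ↔ (G.Adj x y ∧ ¬ ((x = a ∧ y = c) ∨ (x = c ∧ y = a))) ∨
    ((x = b ∧ y = d) ∨ (x = d ∧ y = b)))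

theorem Fl.pos (h : Fl V G G' a b c d) : cyc a a = 0 ∧ 0 < cyc a b ∧ cyc a b < cyc a c ∧
    cyc a c < cyc a d := ⟨cyc_self a, h.abc.1, h.abc.2, h.acd.2⟩

theorem Fl.ne (h : Fl V G G' a b c d) : a ≠ b ∧ a ≠ c ∧ a ≠ d ∧ b ≠ c ∧ b ≠ d ∧ c ≠ d := by
  obtain ⟨h0, h1, h2, h3⟩ := h.pos
  refine ⟨?_, ?_, ?_, ?_, ?_, ?_⟩ <;> rintro rfl <;> omega

theorem Fl.ab' (h : Fl V G G' a b c d) : G'.Adj a b := by
  obtain ⟨h1, h2, h3, h4, h5, h6⟩ := h.ne
  rw [h.adj a h.aV b h.bV]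
  exact Or.inl ⟨h.ab, by rintro (⟨-, h⟩ | ⟨h, -⟩) <;> tauto⟩

theorem Fl.bc' (h : Fl V G G' a b c d) : G'.Adj b c := by
  obtain ⟨h1, h2, h3, h4, h5, h6⟩ := h.ne
  rw [h.adj b h.bV c h.cV]
  exact Or.inl ⟨h.bc, by rintro (⟨h, -⟩ | ⟨h, -⟩) <;> tauto⟩

theorem Fl.cd' (h : Fl V G G' a b c d) : G'.Adj c d := by
  obtain ⟨h1, h2, h3, h4, h5, h6⟩ := h.ne
  rw [h.adj c h.cV d h.dV]
  refine Or.inl ⟨h.cd, ?_⟩
  rintro (⟨e, -⟩ | ⟨-, e⟩)
  · exact h2 e.symm
  · exact h3 e.symm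

theorem Fl.da' (h : Fl V G G' a b c d) : G'.Adj d a := by
  obtain ⟨h1, h2, h3, h4, h5, h6⟩ := h.ne
  rw [h.adj d h.dV a h.aV]
  refine Or.inl ⟨h.da, ?_⟩
  rintro (⟨e, -⟩ | ⟨e, -⟩)
  · exact h3 e.symm
  · exact h6 e.symm

theorem Fl.bd' (h : Fl V G G' a b c d) : G'.Adj b d := by
  rw [h.adj b h.bV d h.dV]
  exact Or.inr (Or.inl ⟨rfl, rfl⟩)

theorem Fl.nac' (h : Fl V G G' a b c d) : ¬ G'.Adj a c := by
  obtain ⟨h1, h2, h3, h4, h5, h6⟩ := h.ne
  rw [h.adj a h.aV c h.cV]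
  rintro (⟨-, e⟩ | ⟨e, -⟩ | ⟨e, -⟩)
  · exact e (Or.inl ⟨rfl, rfl⟩)
  · exact h1 e
  · exact h3 e

/-- the flip back -/
theorem Fl.back (h : Fl V G G' a b c d) : Fl V G' G b c d a := by
  obtain ⟨h0, h1, h2, h3⟩ := h.pos
  refine ⟨h.tri', h.tri, h.bV, h.cV, h.dV, h.aV, ?_, ?_, h.bc', h.cd', h.da', h.ab', h.bd',
    fun e => h.nac' e.symm, fun x hx y hy => ?_⟩
  · rw [Ccw_iff a]; omega
  · rw [Ccw_iff a]; omega
  · rw [h.adj x hx y hy]
    have hac := h.ac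
    have hbd := h.nbd
    have key : (x = b ∧ y = d) ∨ (x = d ∧ y = b) → ¬ G.Adj x y := by
      rintro (⟨rfl, rfl⟩ | ⟨rfl, rfl⟩)
      · exact hbd
      · exact fun e => hbd e.symm
    have key2 : (x = a ∧ y = c) ∨ (x = c ∧ y = a) → G.Adj x y := by
      rintro (⟨rfl, rfl⟩ | ⟨rfl, rfl⟩)
      · exact hac
      · exact hac.symm
    obtain ⟨n1, n2, n3, n4, n5, n6⟩ := h.ne
    have key3 : (x = a ∧ y = c) ∨ (x = c ∧ y = a) → ¬ ((x = b ∧ y = d) ∨ (x = d ∧ y = b)) := by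
      rintro (⟨h1, h2⟩ | ⟨h1, h2⟩) (⟨e1, e2⟩ | ⟨e1, e2⟩)
      · exact n1 (h1.symm.trans e1)
      · exact n3 (h1.symm.trans e1)
      · exact n4 (e1.symm.trans h1)
      · exact n6 (h1.symm.trans e1)
    constructor
    · intro hG
      by_cases h1 : (x = a ∧ y = c) ∨ (x = c ∧ y = a)
      · exact Or.inr (h1.symm)
      · refine Or.inl ⟨Or.inl ⟨hG, h1⟩, fun h2 => key h2 hG⟩
    · rintro (⟨h1 | h1, h2⟩ | h1)
      · exact h1.1
      · exact absurd h1 h2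
      · exact key2 h1.symm

/-- third vertices of triangles at `ac` -/
theorem Fl.apex (h : Fl V G G' a b c d) {v : Fin N} (hv : v ∈ V) (h1 : G.Adj v a)
    (h2 : G.Adj v c) : v = b ∨ v = d := by
  obtain ⟨e0, e1, e2, e3⟩ := h.pos
  have n1 := h.tri.nc v hv c h.cV a h.aV b h.bV h2 h.ab
  have n2 := h.tri.nc v hv a h.aV b h.bV c h.cV h1 h.bc
  have n3 := h.tri.nc v hv a h.aV c h.cV d h.dV h1 h.cd
  have n4 := h.tri.nc v hv c h.cV d h.dV a h.aV h2 h.da
  have hva : 0 < cyc a v := cyc_pos.2 h1.ne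
  have hvc : cyc a v ≠ cyc a c := fun e => h2.ne (cyc_inj e)
  rcases lt_trichotomy (cyc a v) (cyc a b) with h4 | h4 | h4
  · refine absurd ?_ n1
    rw [Crs_iff a, e0]
    exact Or.inr (Or.inl ⟨h4, e2, Or.inl hva⟩)
  · exact Or.inl (cyc_inj h4)
  · rcases lt_trichotomy (cyc a v) (cyc a c) with h5 | h5 | h5
    · refine absurd ?_ n2
      rw [Crs_iff a, e0]
      exact Or.inr (Or.inr (Or.inl ⟨e1, h4, Or.inr h5⟩))
    · exact absurd h5 hvc
    · rcases lt_trichotomy (cyc a v) (cyc a d) with h6 | h6 | h6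
      · refine absurd ?_ n3
        rw [Crs_iff a, e0]
        exact Or.inr (Or.inr (Or.inl ⟨e1.trans e2, h5, Or.inr h6⟩))
      · exact Or.inr (cyc_inj h6)
      · refine absurd ?_ n4
        rw [Crs_iff a, e0]
        exact Or.inr (Or.inr (Or.inl ⟨e3, h6, Or.inl (e1.trans e2)⟩))

/-- supported in the quadrilateral -/
def InQ (a b c d : Fin N) (x : Fin N → ℝ) : Prop := ∀ v, x v ≠ 0 → v = a ∨ v = b ∨ v = c ∨ v = d

theorem Fl.adjQ (h : Fl V G G' a b c d) {u v : Fin N} (hu : u = a ∨ u = b ∨ u = c ∨ u = d)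
    (hv : v = a ∨ v = b ∨ v = c ∨ v = d) (huv : u ≠ v)
    (hn : ¬ ((u = a ∧ v = c) ∨ (u = c ∧ v = a))) : G'.Adj u v := by
  have h1 := h.ab'
  have h2 := h.bc'
  have h3 := h.cd'
  have h4 := h.da'
  have h5 := h.bd'
  rcases hu with rfl | rfl | rfl | rfl <;> rcases hv with rfl | rfl | rfl | rfl
  · exact absurd rfl huv
  · exact h1
  · exact absurd (Or.inl ⟨rfl, rfl⟩) hn
  · exact h4.symm
  · exact h1.symm
  · exact absurd rfl huv
  · exact h2
  · exact h5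
  · exact absurd (Or.inr ⟨rfl, rfl⟩) hn
  · exact h2.symm
  · exact absurd rfl huv
  · exact h3
  · exact h4
  · exact h5.symm
  · exact h3.symm
  · exact absurd rfl huv

theorem Fl.memQ (h : Fl V G G' a b c d) (h0 : ∀ v, 0 ≤ x v) (h1 : ∑ v, x v = 1)
    (hQ : InQ a b c d x) (hz : x a = 0 ∨ x c = 0) : x ∈ Pts V G' := by
  refine ⟨h0, h1, fun v hv => ?_, fun u v hu hv huv => h.adjQ (hQ u hu) (hQ v hv) huv ?_⟩
  · rcases hQ v hv with rfl | rfl | rfl | rfl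
    · exact h.aV
    · exact h.bV
    · exact h.cV
    · exact h.dV
  · rintro (⟨rfl, rfl⟩ | ⟨rfl, rfl⟩)
    · exact hz.elim hu hv
    · exact hz.elim hv hu

theorem Fl.shQ (h : Fl V G G' a b c d) (hx : InQ a b c d x) (hy : InQ a b c d y)
    (hz : (x a = 0 ∧ y a = 0) ∨ (x c = 0 ∧ y c = 0)) : Sh G' x y := by
  intro u v hu hv huv
  refine h.adjQ (hu.elim (hx u) (hy u)) (hv.elim (hx v) (hy v)) huv ?_
  rintro (⟨rfl, rfl⟩ | ⟨rfl, rfl⟩) <;> rcases hz with hz | hz <;> tauto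

theorem Fl.zeroQ (h : Fl V G G' a b c d) (hx : x ∈ Pts V G') : x a = 0 ∨ x c = 0 := by
  by_contra hcon
  push Not at hcon
  exact h.nac' (hx.2.2.2 a c hcon.1 hcon.2 h.ne.2.1)

theorem dev_lin (P : Fin N → ℂ) {Z : Fin N → ℝ} {k t l α β : ℝ} {X Y : Fin N → ℝ}
    (hZ : ∀ v, Z v = k * ((1 - t) * dl b v + t * dl d v) + (1 - l) * (X v - α * dl a v) +
      l * (Y v - β * dl c v)) : dev P Z = (k : ℂ) * (((1 - t : ℝ) : ℂ) * P b + (t : ℂ) * P d) +
      (1 - l : ℝ) * (dev P X - (α : ℂ) * P a) + (l : ℂ) * (dev P Y - (β : ℂ) * P c) := by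
  have e1 : ∀ v : Fin N, P v = ∑ u, ((dl v u : ℝ) : ℂ) * P u := fun v => (dev_dl P v).symm
  rw [e1 a, e1 b, e1 c, e1 d]
  unfold dev
  simp only [Finset.mul_sum, ← Finset.sum_add_distrib, ← Finset.sum_sub_distrib]
  refine Finset.sum_congr rfl fun v _ => ?_
  rw [hZ]
  push_cast
  ring

/-- crossing the new diagonal -/
theorem Fl.cross (h : Fl V G G' a b c d) {s t : ℝ} (hs : s ∈ Set.Icc (0 : ℝ) 1)
    (ht : t ∈ Set.Icc (0 : ℝ) 1)
    (hO : (1 - s : ℝ) * P a + (s : ℝ) * P c = (1 - t : ℝ) * P b + (t : ℝ) * P d)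
    {X Y : Fin N → ℝ} (hX : X ∈ Pts V G') (hY : Y ∈ Pts V G') (hXQ : InQ a b c d X)
    (hYQ : InQ a b c d Y) (hXa : X a ≠ 0) (hYc : Y c ≠ 0) :
    ∃ r ≤ ‖dev P X - dev P Y‖, Ch V G' P X Y r := by
  obtain ⟨n1, n2, n3, n4, n5, n6⟩ := h.ne
  have hXc : X c = 0 := (h.zeroQ hX).resolve_left hXa
  have hYa : Y a = 0 := (h.zeroQ hY).resolve_right hYc
  have hα : 0 < X a := lt_of_le_of_ne (hX.1 a) hXa.symm
  have hβ : 0 < Y c := lt_of_le_of_ne (hY.1 c) hYc.symm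
  have hden : 0 < X a * s + Y c * (1 - s) := by
    rcases eq_or_lt_of_le hs.1 with h0 | h0
    · rw [← h0]; simpa using hβ
    · have := mul_pos hα h0
      have := mul_nonneg hβ.le (sub_nonneg.2 hs.2)
      linarith
  set den := X a * s + Y c * (1 - s) with hdendef
  set l := X a * s / den with hl
  set k := X a * Y c / den with hk
  have hl0 : 0 ≤ l := div_nonneg (mul_nonneg hα.le hs.1) hden.le
  have hk0 : 0 ≤ k := div_nonneg (mul_pos hα hβ).le hden.le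
  have hl1 : 1 - l = Y c * (1 - s) / den := by
    rw [hl, eq_div_iff hden.ne', sub_mul, div_mul_cancel₀ _ hden.ne']
    rw [hdendef]; ring
  have hl1' : 0 ≤ 1 - l := by
    rw [hl1]; exact div_nonneg (mul_nonneg hβ.le (sub_nonneg.2 hs.2)) hden.le
  have hka : (1 - l) * X a = k * (1 - s) := by rw [hl1, hk]; ring
  have hkc : l * Y c = k * s := by rw [hl, hk]; ring
  set Z : Fin N → ℝ := fun v => k * ((1 - t) * dl b v + t * dl d v) +
    (1 - l) * (X v - X a * dl a v) + l * (Y v - Y c * dl c v) with hZ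
  have dls : ∀ v : Fin N, dl v v = 1 := fun v => Pi.single_eq_same v 1
  have dln : ∀ u v : Fin N, v ≠ u → dl u v = 0 := fun u v e => Pi.single_eq_of_ne e 1
  have dl0 : ∀ u v : Fin N, 0 ≤ dl u v := by
    intro u v
    by_cases e : v = u
    · rw [e, dls]; norm_num
    · rw [dln u v e]
  have hZ0 : ∀ v, 0 ≤ Z v := by
    intro v
    have i1 : 0 ≤ X v - X a * dl a v := by
      by_cases e : v = a
      · rw [e, dls]; simp
      · rw [dln a v e]; simpa using hX.1 v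
    have i2 : 0 ≤ Y v - Y c * dl c v := by
      by_cases e : v = c
      · rw [e, dls]; simp
      · rw [dln c v e]; simpa using hY.1 v
    have i3 : 0 ≤ (1 - t) * dl b v + t * dl d v :=
      add_nonneg (mul_nonneg (sub_nonneg.2 ht.2) (dl0 _ _)) (mul_nonneg ht.1 (dl0 _ _))
    have := mul_nonneg hk0 i3
    have := mul_nonneg hl1' i1
    have := mul_nonneg hl0 i2
    simp only [hZ]
    linarith
  have dlsum : ∀ v : Fin N, ∑ u, dl v u = 1 := fun v => (dl_mem (V := univ) G (mem_univ v)).2.1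
  have hZ1 : ∑ v, Z v = 1 := by
    simp only [hZ, Finset.sum_add_distrib, ← Finset.mul_sum, Finset.sum_sub_distrib, dlsum,
      hX.2.1, hY.2.1]
    have : k * (1 - s) + k * s = k := by ring
    linarith
  have hZa : Z a = 0 := by
    simp only [hZ]
    rw [dln b a n1, dln d a n3, dls, dln c a n2, hYa]
    ring
  have hZc : Z c = 0 := by
    simp only [hZ]
    rw [dln b c n4.symm, dln d c n6, dln a c n2.symm, dls, hXc]
    ring
  have hZQ : InQ a b c d Z := by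
    intro v hv
    by_contra hcon
    push Not at hcon
    obtain ⟨m1, m2, m3, m4⟩ := hcon
    apply hv
    have x0 : X v = 0 := by
      by_contra e
      rcases hXQ v e with e | e | e | e <;> tauto
    have y0 : Y v = 0 := by
      by_contra e
      rcases hYQ v e with e | e | e | e <;> tauto
    simp only [hZ]
    rw [dln b v m2, dln d v m4, dln a v m1, dln c v m3, x0, y0]
    ring
  have hZm : Z ∈ Pts V G' := h.memQ hZ0 hZ1 hZQ (Or.inl hZa)
  have hdev : dev P Z = ((1 - l : ℝ) : ℂ) * dev P X + (l : ℂ) * dev P Y := by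
    rw [dev_lin P (fun v => rfl : ∀ v, Z v = _)]
    have e1 : (k : ℂ) * (((1 - t : ℝ) : ℂ) * P b + (t : ℂ) * P d) =
        ((1 - l : ℝ) : ℂ) * ((X a : ℂ) * P a) + (l : ℂ) * ((Y c : ℂ) * P c) := by
      rw [← hO]
      have f1 : ((1 - l : ℝ) : ℂ) * (X a : ℂ) = (k : ℂ) * ((1 - s : ℝ) : ℂ) := by
        rw [← Complex.ofReal_mul, hka, Complex.ofReal_mul]
      have f2 : (l : ℂ) * (Y c : ℂ) = (k : ℂ) * (s : ℂ) := by
        rw [← Complex.ofReal_mul, hkc, Complex.ofReal_mul]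
      rw [← mul_assoc, ← mul_assoc, f1, f2]
      ring
    rw [e1]
    ring
  refine ⟨‖dev P X - dev P Z‖ + ‖dev P Z - dev P Y‖, le_of_eq ?_,
    Ch_trans (Ch_step hX hZm (h.shQ hXQ hZQ (Or.inr ⟨hXc, hZc⟩)))
      (Ch_step hZm hY (h.shQ hZQ hYQ (Or.inl ⟨hZa, hYa⟩)))⟩
  have g1 : dev P X - dev P Z = (l : ℂ) * (dev P X - dev P Y) := by
    rw [hdev]; push_cast; ring
  have g2 : dev P Z - dev P Y = ((1 - l : ℝ) : ℂ) * (dev P X - dev P Y) := by
    rw [hdev]; push_cast; ring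
  rw [g1, g2, norm_mul, norm_mul, Complex.norm_real, Complex.norm_real,
    Real.norm_of_nonneg hl0, Real.norm_of_nonneg hl1']
  ring

/-- the new quadrilateral is convex -/
theorem Fl.Qlem (h : Fl V G G' a b c d) {s t : ℝ} (hs : s ∈ Set.Icc (0 : ℝ) 1)
    (ht : t ∈ Set.Icc (0 : ℝ) 1)
    (hO : (1 - s : ℝ) * P a + (s : ℝ) * P c = (1 - t : ℝ) * P b + (t : ℝ) * P d)
    {X Y : Fin N → ℝ} (hX : X ∈ Pts V G') (hY : Y ∈ Pts V G') (hXQ : InQ a b c d X)
    (hYQ : InQ a b c d Y) : ∃ r ≤ ‖dev P X - dev P Y‖, Ch V G' P X Y r := by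
  have hdir : ((X a = 0 ∧ Y a = 0) ∨ (X c = 0 ∧ Y c = 0)) →
      ∃ r ≤ ‖dev P X - dev P Y‖, Ch V G' P X Y r := fun hz =>
    ⟨_, le_rfl, Ch_step hX hY (h.shQ hXQ hYQ hz)⟩
  by_cases h1 : X a = 0
  · by_cases h2 : Y a = 0
    · exact hdir (Or.inl ⟨h1, h2⟩)
    · by_cases h3 : X c = 0
      · exact hdir (Or.inr ⟨h3, (h.zeroQ hY).resolve_left h2⟩)
      · obtain ⟨r, hr, hch⟩ := h.cross hs ht hO hY hX hYQ hXQ h2 h3
        exact ⟨r, by rw [norm_sub_rev]; exact hr, Ch_symm hch⟩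
  · have h3 : X c = 0 := (h.zeroQ hX).resolve_left h1
    by_cases h2 : Y c = 0
    · exact hdir (Or.inr ⟨h3, h2⟩)
    · exact h.cross hs ht hO hX hY hXQ hYQ h1 h2

/-- partner points -/
def Rq (P : Fin N → ℂ) (V : Finset (Fin N)) (G' : SimpleGraph (Fin N)) (a b c d : Fin N)
    (x x' : Fin N → ℝ) : Prop :=
  x' ∈ Pts V G' ∧ (x = x' ∨ (InQ a b c d x ∧ InQ a b c d x' ∧ dev P x = dev P x'))

theorem Rq.in' {x x' : Fin N → ℝ} (h : Rq P V G' a b c d x x') (hx : InQ a b c d x) :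
    InQ a b c d x' ∧ dev P x = dev P x' := by
  rcases h.2 with rfl | h2
  · exact ⟨hx, rfl⟩
  · exact ⟨h2.2.1, h2.2.2⟩

theorem Fl.partner (h : Fl V G G' a b c d) {s t : ℝ} (hs : s ∈ Set.Icc (0 : ℝ) 1)
    (ht : t ∈ Set.Icc (0 : ℝ) 1)
    (hO : (1 - s : ℝ) * P a + (s : ℝ) * P c = (1 - t : ℝ) * P b + (t : ℝ) * P d)
    (hx : x ∈ Pts V G) : ∃ x', Rq P V G' a b c d x x' ∧ ∀ v, x = dl v → x' = x := by
  obtain ⟨n1, n2, n3, n4, n5, n6⟩ := h.ne
  by_cases hz : x a = 0 ∨ x c = 0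
  · refine ⟨x, ⟨⟨hx.1, hx.2.1, hx.2.2.1, fun u v hu hv huv => ?_⟩, Or.inl rfl⟩,
      fun _ _ => rfl⟩
    rw [h.adj u (hx.2.2.1 u hu) v (hx.2.2.1 v hv)]
    refine Or.inl ⟨hx.2.2.2 u v hu hv huv, ?_⟩
    rintro (⟨rfl, rfl⟩ | ⟨rfl, rfl⟩)
    · exact hz.elim hu hv
    · exact hz.elim hv hu
  · push Not at hz
    obtain ⟨hxa, hxc⟩ := hz
    have dls : ∀ v : Fin N, dl v v = 1 := fun v => Pi.single_eq_same v 1
    have dln : ∀ u v : Fin N, v ≠ u → dl u v = 0 := fun u v e => Pi.single_eq_of_ne e 1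
    have dlsum : ∀ v : Fin N, ∑ u, dl v u = 1 := fun v => (dl_mem (V := univ) G (mem_univ v)).2.1
    have hQ : InQ a b c d x := by
      intro v hv
      by_cases e1 : v = a
      · exact Or.inl e1
      by_cases e2 : v = c
      · exact Or.inr (Or.inr (Or.inl e2))
      have := h.apex (hx.2.2.1 v hv) (hx.2.2.2 v a hv hxa e1) (hx.2.2.2 v c hv hxc e2)
      tauto
    have ha0 : 0 < x a := lt_of_le_of_ne (hx.1 a) hxa.symm
    have hc0 : 0 < x c := lt_of_le_of_ne (hx.1 c) hxc.symm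
    obtain ⟨m, hm0, hma, hmc, hmz⟩ : ∃ m : ℝ, 0 ≤ m ∧ 0 ≤ x a - m * (1 - s) ∧
        0 ≤ x c - m * s ∧ (x a - m * (1 - s) = 0 ∨ x c - m * s = 0) := by
      by_cases hcase : x a * s ≤ x c * (1 - s)
      · have h1s : 0 < 1 - s := by
          rcases eq_or_lt_of_le (sub_nonneg.2 hs.2) with e | e
          · exfalso
            have : s = 1 := by linarith
            rw [this] at hcase
            linarith
          · exact e
        refine ⟨x a / (1 - s), div_nonneg ha0.le h1s.le, ?_, ?_, Or.inl ?_⟩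
        · rw [div_mul_cancel₀ _ h1s.ne']; simp
        · rw [div_mul_eq_mul_div, sub_nonneg, div_le_iff₀ h1s]; exact hcase
        · rw [div_mul_cancel₀ _ h1s.ne']; simp
      · push Not at hcase
        have h1s : 0 < s := by
          rcases eq_or_lt_of_le hs.1 with e | e
          · exfalso
            rw [← e] at hcase
            linarith
          · exact e
        refine ⟨x c / s, div_nonneg hc0.le h1s.le, ?_, ?_, Or.inr ?_⟩
        · rw [div_mul_eq_mul_div, sub_nonneg, div_le_iff₀ h1s]; exact hcase.le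
        · rw [div_mul_cancel₀ _ h1s.ne']; simp
        · rw [div_mul_cancel₀ _ h1s.ne']; simp
    set x' : Fin N → ℝ := fun v => x v - m * ((1 - s) * dl a v + s * dl c v) +
      m * ((1 - t) * dl b v + t * dl d v) with hx'
    have ea : x' a = x a - m * (1 - s) := by
      simp only [hx']; rw [dls, dln c a n2, dln b a n1, dln d a n3]; ring
    have ec : x' c = x c - m * s := by
      simp only [hx']; rw [dls, dln a c n2.symm, dln b c n4.symm, dln d c n6]; ring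
    have eb : x' b = x b + m * (1 - t) := by
      simp only [hx']; rw [dls, dln a b n1.symm, dln c b n4, dln d b n5]; ring
    have ed : x' d = x d + m * t := by
      simp only [hx']; rw [dls, dln a d n3.symm, dln c d n6.symm, dln b d n5.symm]; ring
    have eo : ∀ v, v ≠ a → v ≠ b → v ≠ c → v ≠ d → x' v = 0 := by
      intro v m1 m2 m3 m4
      have x0 : x v = 0 := by
        by_contra e
        rcases hQ v e with e | e | e | e <;> tauto
      simp only [hx']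
      rw [dln a v m1, dln b v m2, dln c v m3, dln d v m4, x0]
      ring
    have h0 : ∀ v, 0 ≤ x' v := by
      intro v
      by_cases e1 : v = a
      · rw [e1, ea]; exact hma
      by_cases e2 : v = c
      · rw [e2, ec]; exact hmc
      by_cases e3 : v = b
      · rw [e3, eb]; exact add_nonneg (hx.1 b) (mul_nonneg hm0 (sub_nonneg.2 ht.2))
      by_cases e4 : v = d
      · rw [e4, ed]; exact add_nonneg (hx.1 d) (mul_nonneg hm0 ht.1)
      rw [eo v e1 e3 e2 e4]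
    have h1 : ∑ v, x' v = 1 := by
      simp only [hx', Finset.sum_add_distrib, Finset.sum_sub_distrib, ← Finset.mul_sum, dlsum,
        hx.2.1]
      ring
    have hQ' : InQ a b c d x' := by
      intro v hv
      by_contra hcon
      push Not at hcon
      exact hv (eo v hcon.1 hcon.2.1 hcon.2.2.1 hcon.2.2.2)
    refine ⟨x', ⟨h.memQ h0 h1 hQ' (by rw [ea, ec]; exact hmz), Or.inr ⟨hQ, hQ', ?_⟩⟩, ?_⟩
    · have e1 : ∀ v : Fin N, P v = ∑ u, ((dl v u : ℝ) : ℂ) * P u := fun v => (dev_dl P v).symm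
      have e2 : dev P x' = dev P x - (m : ℂ) * (((1 - s : ℝ) : ℂ) * P a + (s : ℂ) * P c) +
          (m : ℂ) * (((1 - t : ℝ) : ℂ) * P b + (t : ℂ) * P d) := by
        rw [e1 a, e1 b, e1 c, e1 d]
        unfold dev
        simp only [Finset.mul_sum, ← Finset.sum_add_distrib, ← Finset.sum_sub_distrib]
        refine Finset.sum_congr rfl fun v _ => ?_
        simp only [hx']
        push_cast
        ring
      rw [e2, ← hO]
      ring
    · intro v hv
      exfalso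
      rw [hv] at hxa hxc
      have r1 : v = a := by
        by_contra e
        exact hxa (dln v a fun e' => e e'.symm)
      have r2 : v = c := by
        by_contra e
        exact hxc (dln v c fun e' => e e'.symm)
      exact n2 (r1.symm.trans r2)

theorem Fl.zero (h : Fl V G G' a b c d) {s t : ℝ} (hs : s ∈ Set.Icc (0 : ℝ) 1)
    (ht : t ∈ Set.Icc (0 : ℝ) 1)
    (hO : (1 - s : ℝ) * P a + (s : ℝ) * P c = (1 - t : ℝ) * P b + (t : ℝ) * P d)
    {x' : Fin N → ℝ} (hx : x ∈ Pts V G') (hR : Rq P V G' a b c d x x') :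
    ∃ r ≤ (0 : ℝ), Ch V G' P x' x r := by
  rcases hR.2 with rfl | ⟨h1, h2, h3⟩
  · exact ⟨0, le_rfl, Ch.nil _ hx⟩
  · obtain ⟨r, hr, hch⟩ := h.Qlem hs ht hO hR.1 hx h2 h1
    rw [h3, sub_self, norm_zero] at hr
    exact ⟨r, hr, hch⟩

theorem Fl.step (h : Fl V G G' a b c d) {s t : ℝ} (hs : s ∈ Set.Icc (0 : ℝ) 1)
    (ht : t ∈ Set.Icc (0 : ℝ) 1)
    (hO : (1 - s : ℝ) * P a + (s : ℝ) * P c = (1 - t : ℝ) * P b + (t : ℝ) * P d)
    {w x' w' : Fin N → ℝ} (hx : x ∈ Pts V G) (hw : w ∈ Pts V G) (hsh : Sh G x w)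
    (hR : Rq P V G' a b c d x x') (hR' : Rq P V G' a b c d w w') :
    ∃ r ≤ ‖dev P x - dev P w‖, Ch V G' P x' w' r := by
  by_cases hQ : InQ a b c d x ∧ InQ a b c d w
  · obtain ⟨h1, h2⟩ := hR.in' hQ.1
    obtain ⟨h3, h4⟩ := hR'.in' hQ.2
    rw [h2, h4]
    exact h.Qlem hs ht hO hR.1 hR'.1 h1 h3
  · -- the step does not contain both `a` and `c`
    have hno : ¬ ((x a ≠ 0 ∨ w a ≠ 0) ∧ (x c ≠ 0 ∨ w c ≠ 0)) := by
      rintro ⟨h1, h2⟩
      have key : ∀ v, (x v ≠ 0 ∨ w v ≠ 0) → v = a ∨ v = b ∨ v = c ∨ v = d := by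
        intro v hv
        have hvV : v ∈ V := hv.elim (hx.2.2.1 v) (hw.2.2.1 v)
        by_cases e1 : v = a
        · exact Or.inl e1
        by_cases e2 : v = c
        · exact Or.inr (Or.inr (Or.inl e2))
        have := h.apex hvV (hsh v a hv h1 e1) (hsh v c hv h2 e2)
        tauto
      exact hQ ⟨fun v hv => key v (Or.inl hv), fun v hv => key v (Or.inr hv)⟩
    have hsh' : Sh G' x w := by
      intro u v hu hv huv
      rw [h.adj u (hu.elim (hx.2.2.1 u) (hw.2.2.1 u)) v (hv.elim (hx.2.2.1 v) (hw.2.2.1 v))]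
      refine Or.inl ⟨hsh u v hu hv huv, ?_⟩
      rintro (⟨rfl, rfl⟩ | ⟨rfl, rfl⟩)
      · exact hno ⟨hu, hv⟩
      · exact hno ⟨hv, hu⟩
    have hx1 : x ∈ Pts V G' :=
      ⟨hx.1, hx.2.1, hx.2.2.1, fun u v hu hv huv => hsh' u v (Or.inl hu) (Or.inl hv) huv⟩
    have hw1 : w ∈ Pts V G' :=
      ⟨hw.1, hw.2.1, hw.2.2.1, fun u v hu hv huv => hsh' u v (Or.inr hu) (Or.inr hv) huv⟩
    obtain ⟨r₁, hr₁, hc₁⟩ := h.zero hs ht hO hx1 hR
    obtain ⟨r₂, hr₂, hc₂⟩ := h.zero hs ht hO hw1 hR'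
    exact ⟨_, by linarith, Ch_trans hc₁ (Ch_trans (Ch_step hx1 hw1 hsh') (Ch_symm hc₂))⟩

theorem Fl.transfer (h : Fl V G G' a b c d) {s t : ℝ} (hs : s ∈ Set.Icc (0 : ℝ) 1)
    (ht : t ∈ Set.Icc (0 : ℝ) 1)
    (hO : (1 - s : ℝ) * P a + (s : ℝ) * P c = (1 - t : ℝ) * P b + (t : ℝ) * P d)
    {r : ℝ} (hc : Ch V G P x y r) : ∀ x' y', Rq P V G' a b c d x x' → Rq P V G' a b c d y y' →
    ∃ r' ≤ r, Ch V G' P x' y' r' := by
  induction hc with
  | nil x hx =>
    intro x' y' h1 h2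
    obtain ⟨r, hr, hch⟩ := h.step hs ht hO hx hx (Sh_self hx) h1 h2
    rw [sub_self, norm_zero] at hr
    exact ⟨r, hr, hch⟩
  | cons x w y r hx hsh hc ih =>
    intro x' y' h1 h2
    obtain ⟨w', hw', -⟩ := h.partner hs ht hO (Ch_left hc)
    obtain ⟨r₁, hr₁, hc₁⟩ := h.step hs ht hO hx (Ch_left hc) hsh h1 hw'
    obtain ⟨r₂, hr₂, hc₂⟩ := ih w' y' hw' h2
    exact ⟨_, by linarith, Ch_trans hc₁ hc₂⟩

theorem Fl.dK_le (hB : stBdAdj) (h : Fl V G G' a b c d) {s t : ℝ} (hs : s ∈ Set.Icc (0 : ℝ) 1)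
    (ht : t ∈ Set.Icc (0 : ℝ) 1)
    (hO : (1 - s : ℝ) * P a + (s : ℝ) * P c = (1 - t : ℝ) * P b + (t : ℝ) * P d)
    {x' y' : Fin N → ℝ} (hx : x ∈ Pts V G) (hy : y ∈ Pts V G)
    (h1 : Rq P V G' a b c d x x') (h2 : Rq P V G' a b c d y y') :
    dK V G' P x' y' ≤ dK V G P x y := by
  obtain ⟨r', hr', hc'⟩ := h.transfer hs ht hO ((metP hB h.tri P).att x hx y hy) x' y' h1 h2
  exact (Pool.Agent.Helper88.GP.dK_le hc').trans hr'

theorem Fl.dV_le (hB : stBdAdj) (h : Fl V G G' a b c d) {s t : ℝ} (hs : s ∈ Set.Icc (0 : ℝ) 1)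
    (ht : t ∈ Set.Icc (0 : ℝ) 1)
    (hO : (1 - s : ℝ) * P a + (s : ℝ) * P c = (1 - t : ℝ) * P b + (t : ℝ) * P d)
    {u v : Fin N} (hu : u ∈ V) (hv : v ∈ V) : Pool.Agent.Helper18.GP.dV V G' P u v ≤
      Pool.Agent.Helper18.GP.dV V G P u v :=
  h.dK_le hB hs ht hO (dl_mem G hu) (dl_mem G hv) ⟨dl_mem G' hu, Or.inl rfl⟩
    ⟨dl_mem G' hv, Or.inl rfl⟩

theorem Ln_set_nonempty (V : Finset (Fin N)) (G : SimpleGraph (Fin N)) (P : Fin N → ℂ)
    {B : Finset (Fin N)} (hB : B ⊆ V) :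
    {c | ∃ E : List ((Fin N → ℝ) × (Fin N → ℝ)), (∀ e ∈ E, e.1 ∈ Pts V G ∧ e.2 ∈ Pts V G) ∧
      NConn E (dl '' (B : Set (Fin N))) ∧ c = nlen (dK V G P) E}.Nonempty := by
  refine ⟨_, (B ×ˢ B).toList.map (fun p => (dl p.1, dl p.2)), ?_, ?_, rfl⟩
  · intro e he
    rw [List.mem_map] at he
    obtain ⟨p, hp, rfl⟩ := he
    rw [Finset.mem_toList, Finset.mem_product] at hp
    exact ⟨dl_mem G (hB hp.1), dl_mem G (hB hp.2)⟩
  · rintro _ ⟨u, hu, rfl⟩ _ ⟨v, hv, rfl⟩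
    refine EqvGen.rel _ _ ?_
    rw [List.mem_map]
    exact ⟨(u, v), by rw [Finset.mem_toList, Finset.mem_product]; exact ⟨hu, hv⟩, rfl⟩

theorem nlen_nonneg (V : Finset (Fin N)) (G : SimpleGraph (Fin N)) (P : Fin N → ℂ)
    (E : List ((Fin N → ℝ) × (Fin N → ℝ))) : 0 ≤ nlen (dK V G P) E := by
  unfold nlen
  refine List.sum_nonneg fun r hr => ?_
  rw [List.mem_map] at hr
  obtain ⟨e, -, rfl⟩ := hr
  exact dK_nonneg _ _ _ _ _

theorem Fl.Ln_le (hB : stBdAdj) (h : Fl V G G' a b c d) {s t : ℝ} (hs : s ∈ Set.Icc (0 : ℝ) 1)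
    (ht : t ∈ Set.Icc (0 : ℝ) 1)
    (hO : (1 - s : ℝ) * P a + (s : ℝ) * P c = (1 - t : ℝ) * P b + (t : ℝ) * P d)
    {B : Finset (Fin N)} (hBV : B ⊆ V) : Ln V G' P B ≤ Ln V G P B := by
  classical
  choose! p hp hp' using fun x (hx : x ∈ Pts V G) => h.partner hs ht hO hx
  have hmem : ∀ E : List ((Fin N → ℝ) × (Fin N → ℝ)), (∀ e ∈ E, e.1 ∈ Pts V G ∧ e.2 ∈ Pts V G) →
      NConn E (dl '' (B : Set (Fin N))) →
      Ln V G' P B ≤ nlen (dK V G' P) (E.map (fun e => (p e.1, p e.2))) := by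
    intro E hE hcon
    unfold Ln StL
    refine csInf_le ⟨0, ?_⟩ ⟨E.map (fun e => (p e.1, p e.2)), ?_, ?_, rfl⟩
    · rintro _ ⟨E', -, -, rfl⟩
      exact nlen_nonneg _ _ _ _
    · intro e he
      rw [List.mem_map] at he
      obtain ⟨e', he', rfl⟩ := he
      exact ⟨(hp _ (hE e' he').1).1, (hp _ (hE e' he').2).1⟩
    · have key : ∀ u v, EqvGen (fun x y => (x, y) ∈ E) u v →
          EqvGen (fun x y => (x, y) ∈ E.map (fun e => (p e.1, p e.2))) (p u) (p v) := by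
        intro u v huv
        induction huv with
        | rel x y hxy =>
          refine EqvGen.rel _ _ ?_
          rw [List.mem_map]
          exact ⟨(x, y), hxy, rfl⟩
        | refl x => exact EqvGen.refl _
        | symm x y _ ih => exact EqvGen.symm _ _ ih
        | trans x y z _ _ ih1 ih2 => exact EqvGen.trans _ _ _ ih1 ih2
      rintro _ ⟨u, hu, rfl⟩ _ ⟨v, hv, rfl⟩
      have h1 := key _ _ (hcon _ ⟨u, hu, rfl⟩ _ ⟨v, hv, rfl⟩)
      rwa [hp' (dl u) (dl_mem G (hBV hu)) u rfl, hp' (dl v) (dl_mem G (hBV hv)) v rfl] at h1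
  have hle : ∀ E : List ((Fin N → ℝ) × (Fin N → ℝ)), (∀ e ∈ E, e.1 ∈ Pts V G ∧ e.2 ∈ Pts V G) →
      nlen (dK V G' P) (E.map (fun e => (p e.1, p e.2))) ≤ nlen (dK V G P) E := by
    intro E hE
    unfold nlen
    rw [List.map_map]
    refine List.sum_le_sum fun e he => ?_
    exact h.dK_le hB hs ht hO (hE e he).1 (hE e he).2 (hp _ (hE e he).1) (hp _ (hE e he).2)
  unfold Ln StL
  refine le_csInf (Ln_set_nonempty V G P hBV) ?_
  rintro _ ⟨E, hE, hcon, rfl⟩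
  exact (hmem E hE hcon).trans (hle E hE)

theorem Fl.iso (hB : stBdAdj) (h : Fl V G G' a b c d) {s t : ℝ} (hs : s ∈ Set.Icc (0 : ℝ) 1)
    (ht : t ∈ Set.Icc (0 : ℝ) 1)
    (hO : (1 - s : ℝ) * P a + (s : ℝ) * P c = (1 - t : ℝ) * P b + (t : ℝ) * P d) :
    Iso V G G' P := by
  have hb := h.back
  have hO' : (1 - t : ℝ) * P b + (t : ℝ) * P d = (1 - (1 - s) : ℝ) * P c + ((1 - s : ℝ) : ℂ) * P a := by
    rw [← hO]; push_cast; ring
  have hs' : (1 - s) ∈ Set.Icc (0 : ℝ) 1 := ⟨by linarith [hs.2], by linarith [hs.1]⟩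
  exact ⟨fun u hu v hv => le_antisymm (h.dV_le hB hs ht hO hu hv) (hb.dV_le hB ht hs' hO' hu hv),
    fun B hBV => le_antisymm (h.Ln_le hB hs ht hO hBV) (hb.Ln_le hB ht hs' hO' hBV)⟩

/-! ### the flip of a graph -/

/-- the flipped graph -/
def flipG (G : SimpleGraph (Fin N)) (a b c d : Fin N) : SimpleGraph (Fin N) where
  Adj x y := x ≠ y ∧ ((G.Adj x y ∧ ¬ ((x = a ∧ y = c) ∨ (x = c ∧ y = a))) ∨
    ((x = b ∧ y = d) ∨ (x = d ∧ y = b)))
  symm := ⟨fun x y h => ⟨h.1.symm, h.2.imp (fun h => ⟨h.1.symm, fun e => h.2 (by tauto)⟩)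
    (fun h => by tauto)⟩⟩
  loopless := ⟨fun x h => h.1 rfl⟩

theorem fl_flip (ht : IsTri V G) (ha : a ∈ V) (hb : b ∈ V) (hc : c ∈ V) (hd : d ∈ V)
    (habc : Ccw a b c) (hacd : Ccw a c d) (hab : G.Adj a b) (hbc : G.Adj b c) (hcd : G.Adj c d)
    (hda : G.Adj d a) (hac : G.Adj a c) : Fl V G (flipG G a b c d) a b c d := by
  have e0 : cyc a a = 0 := cyc_self a
  have e1 := habc.1
  have e2 := habc.2
  have e3 := hacd.2
  have nbd : b ≠ d := by rintro rfl; omega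
  have hnbd : ¬ G.Adj b d := by
    intro h
    refine ht.nc b hb d hd a ha c hc h hac ?_
    rw [Crs_iff a, e0]
    exact Or.inr (Or.inl ⟨e2, e3, Or.inl e1⟩)
  have hadj : ∀ x y, (flipG G a b c d).Adj x y ↔
      (G.Adj x y ∧ ¬ ((x = a ∧ y = c) ∨ (x = c ∧ y = a))) ∨
      ((x = b ∧ y = d) ∨ (x = d ∧ y = b)) := by
    intro x y
    constructor
    · exact fun h => h.2
    · intro h
      refine ⟨?_, h⟩
      rcases h with h | ⟨rfl, rfl⟩ | ⟨rfl, rfl⟩
      · exact h.1.ne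
      · exact nbd
      · exact nbd.symm
  -- edges of `G` crossing `bd`
  have L1 : ∀ r ∈ V, ∀ s ∈ V, G.Adj r s → Crs b d r s → (r = a ∧ s = c) ∨ (r = c ∧ s = a) := by
    intro r hr s hs hrs hx
    have hbcd : Ccw b c d := by rw [Ccw_iff a]; omega
    have hbda : Ccw b d a := by rw [Ccw_iff a]; omega
    rcases cross_quad hbcd hbda (Crs_comm hx) with h | h | h | h | h | h
    · exact absurd h (ht.nc r hr s hs b hb c hc hrs hbc)
    · exact absurd h (ht.nc r hr s hs c hc d hd hrs hcd)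
    · exact absurd h (ht.nc r hr s hs d hd a ha hrs hda)
    · exact absurd h (ht.nc r hr s hs a ha b hb hrs hab)
    · exact Or.inr h
    · exact Or.inl h
  have hcomm : ∀ p q r s : Fin N, Crs p q r s → Crs r s p q := fun p q r s h => Crs_comm h
  have hsw : ∀ p q r s : Fin N, Crs p q r s → Crs q p r s := fun p q r s h => Crs_sw h
  have hself : ∀ p q : Fin N, ¬ Crs p q p q := fun p q => Crs_irr
  have htri : IsTri V (flipG G a b c d) := by
    constructor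
    · intro p hp q hq r hr s hs h1 h2 hx
      rw [hadj] at h1 h2
      rcases h1 with ⟨h1, h1'⟩ | h1 <;> rcases h2 with ⟨h2, h2'⟩ | h2
      · exact ht.nc p hp q hq r hr s hs h1 h2 hx
      · -- rs = bd
        have hx2 : Crs b d p q := by
          have := hcomm _ _ _ _ hx
          rcases h2 with ⟨rfl, rfl⟩ | ⟨rfl, rfl⟩
          · exact this
          · exact hsw _ _ _ _ this
        exact h1' (L1 p hp q hq h1 hx2)
      · have hx2 : Crs b d r s := by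
          rcases h1 with ⟨rfl, rfl⟩ | ⟨rfl, rfl⟩
          · exact hx
          · exact hsw _ _ _ _ hx
        exact h2' (L1 r hr s hs h2 hx2)
      · rcases h1 with ⟨rfl, rfl⟩ | ⟨rfl, rfl⟩ <;> rcases h2 with ⟨rfl, rfl⟩ | ⟨rfl, rfl⟩
        · exact hself _ _ hx
        · exact hself _ _ (hsw _ _ _ _ (hcomm _ _ _ _ hx))
        · exact hself _ _ (hsw _ _ _ _ (hcomm _ _ _ _ hx))
        · exact hself _ _ hx
    · intro p hp q hq hpq hn
      rw [hadj] at hn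
      by_cases hcase : (p = a ∧ q = c) ∨ (p = c ∧ q = a)
      · refine ⟨b, hb, d, hd, by rw [hadj]; exact Or.inr (Or.inl ⟨rfl, rfl⟩), ?_⟩
        rcases hcase with ⟨rfl, rfl⟩ | ⟨rfl, rfl⟩
        · rw [Crs_iff p, e0]
          exact Or.inl ⟨e1, e2, Or.inr e3⟩
        · refine Crs_sw ?_
          rw [Crs_iff q, e0]
          exact Or.inl ⟨e1, e2, Or.inr e3⟩
      · have hnG : ¬ G.Adj p q := fun h => hn (Or.inl ⟨h, hcase⟩)
        obtain ⟨r, hr, s, hs, hrs, hx⟩ := ht.mx p hp q hq hpq hnG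
        by_cases hrs' : (r = a ∧ s = c) ∨ (r = c ∧ s = a)
        · have hx2 : Crs p q a c := by
            rcases hrs' with ⟨rfl, rfl⟩ | ⟨rfl, rfl⟩
            · exact hx
            · exact hcomm _ _ _ _ (hsw _ _ _ _ (hcomm _ _ _ _ hx))
          have nac : a ≠ c := hac.ne
          have nbc : b ≠ c := hbc.ne
          have nab : a ≠ b := hab.ne
          have ncd : c ≠ d := hcd.ne
          have nda : d ≠ a := hda.ne
          have g1 : (flipG G a b c d).Adj a b := by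
            rw [hadj]; exact Or.inl ⟨hab, by rintro (⟨-, h⟩ | ⟨h, -⟩) <;> tauto⟩
          have g2 : (flipG G a b c d).Adj b c := by
            rw [hadj]; exact Or.inl ⟨hbc, by rintro (⟨h, -⟩ | ⟨h, -⟩) <;> tauto⟩
          have g3 : (flipG G a b c d).Adj c d := by
            rw [hadj]
            refine Or.inl ⟨hcd, ?_⟩
            rintro (⟨h, -⟩ | ⟨-, h⟩)
            · exact nac h.symm
            · exact nda h
          have g4 : (flipG G a b c d).Adj d a := by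
            rw [hadj]
            refine Or.inl ⟨hda, ?_⟩
            rintro (⟨h, -⟩ | ⟨h, -⟩)
            · exact nda h
            · exact ncd h.symm
          rcases cross_quad habc hacd hx2 with h | h | h | h | h | h
          · exact ⟨a, ha, b, hb, g1, h⟩
          · exact ⟨b, hb, c, hc, g2, h⟩
          · exact ⟨c, hc, d, hd, g3, h⟩
          · exact ⟨d, hd, a, ha, g4, h⟩
          · exact absurd (Or.inr (Or.inl h)) hn
          · exact absurd (Or.inr (Or.inr h)) hn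
        · exact ⟨r, hr, s, hs, by rw [hadj]; exact Or.inl ⟨hrs, hrs'⟩, hx⟩
  exact ⟨ht, htri, ha, hb, hc, hd, habc, hacd, hab, hbc, hcd, hda, hac, hnbd,
    fun x _ y _ => hadj x y⟩

/-- **stFlip** -/
theorem flip (hB : stBdAdj) : stFlip := by
  intro N V G P ht a ha b hb c hc d hd habc hacd hab hbc hcd hda hac s hs t ht' hO
  have h := fl_flip ht ha hb hc hd habc hacd hab hbc hcd hda hac
  refine ⟨flipG G a b c d, h.tri', h.iso hB hs ht' ?_, h.bd', h.nac', fun x hx y hy h1 h2 => ?_⟩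
  · push_cast at hO ⊢
    exact hO
  · rw [h.adj x hx y hy]
    constructor
    · rintro (h3 | h3)
      · exact h3.1
      · exact absurd h3 h2
    · exact fun h3 => Or.inl ⟨h3, h1⟩

end Pool.Agent.Helper88.GP
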